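import Pool.Agent.HP25.NI.D
import Pool.Agent.HP25.PD.E

set_option autoImplicit false

/-! Goldbach pairs for all even integers near the values of smoothly varying functions of non-integral order at integers
with restricted digits. -/

namespace Pool.Agent.HP25.NI
open Finset Filter Topology
open Pool.Agent.H807R2.Dav
open Pool.Agent.TH872.Sq
open Pool.Agent.TH935.GF (En)
open Pool.Agent.HP25.PD
open Pool.Agent.HP25.OS (Mo)
open Pool.Agent.N193.PS (SV)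

/-- the logarithm of the value and the number of the digits -/
lemma log_sv (b : ℕ) (hb : 2 ≤ b) (c : ℝ) (hc : 0 < c) : ∃ K₀ : ℕ, ∀ k : ℕ, K₀ ≤ k → ∀ x : ℝ, 1 ≤ x →
    (b : ℝ) ^ (c / 2 * k) ≤ x → x ≤ (b : ℝ) ^ ((c + 2) * k) →
    (k : ℝ) ≤ Real.log (⌊x⌋₊ : ℕ) ^ 2 ∧ Real.log (⌊x⌋₊ : ℕ) ≤ (k : ℝ) ^ 2 ∧ 1 ≤ ⌊x⌋₊ ∧ k ≤ ⌊x⌋₊ ^ 2 := by
  have hb0 : (0 : ℝ) < b := by exact_mod_cast (by omega : 0 < b)
  have hlb : 0 < Real.log b := Real.log_pos (by exact_mod_cast (by omega : 1 < b))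
  obtain ⟨K, hK⟩ := exists_nat_ge (64 / (c * Real.log b) ^ 2 + (c + 2) * Real.log b + 4 / (c * Real.log b) + 4)
  refine ⟨K, fun k hk x hx1 hx2 hx3 => ?_⟩
  have hkr : 64 / (c * Real.log b) ^ 2 + (c + 2) * Real.log b + 4 / (c * Real.log b) + 4 ≤ k := hK.trans (by exact_mod_cast hk)
  have hp1 : 0 < 64 / (c * Real.log b) ^ 2 := by positivity
  have hp2 : 0 < (c + 2) * Real.log b := by positivity
  have hp3 : 0 < 4 / (c * Real.log b) := by positivity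
  have hk0 : (0 : ℝ) < k := by linarith
  have hf1 : 1 ≤ ⌊x⌋₊ := (Nat.one_le_floor_iff _).2 hx1
  have hfr : (1 : ℝ) ≤ (⌊x⌋₊ : ℕ) := by exact_mod_cast hf1
  have hfx : ((⌊x⌋₊ : ℕ) : ℝ) ≤ x := Nat.floor_le (by linarith)
  have hxf : x ≤ 2 * (⌊x⌋₊ : ℕ) := by
    have := (Nat.lt_floor_add_one x).le
    linarith
  have hlx1 : c / 2 * k * Real.log b ≤ Real.log x := by
    have h1 := Real.log_le_log (Real.rpow_pos_of_pos hb0 _) hx2
    rwa [Real.log_rpow hb0] at h1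
  have hlx2 : Real.log x ≤ (c + 2) * k * Real.log b := by
    have h1 := Real.log_le_log (by linarith) hx3
    rwa [Real.log_rpow hb0] at h1
  have hl2 : Real.log x ≤ Real.log 2 + Real.log (⌊x⌋₊ : ℕ) := by
    rw [← Real.log_mul (by norm_num) (by linarith)]
    exact Real.log_le_log (by linarith) hxf
  have hlog2 : Real.log 2 ≤ 1 := by
    have := Real.log_two_lt_d9
    linarith
  have hlow : c / 4 * k * Real.log b ≤ Real.log (⌊x⌋₊ : ℕ) := by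
    have h1 : 4 / (c * Real.log b) ≤ k := by linarith
    rw [div_le_iff₀ (by positivity)] at h1
    nlinarith
  have hsq : (k : ℝ) ≤ Real.log (⌊x⌋₊ : ℕ) ^ 2 := by
    have h1 : 64 / (c * Real.log b) ^ 2 ≤ k := by linarith
    rw [div_le_iff₀ (by positivity)] at h1
    have h2 : (c / 4 * k * Real.log b) ^ 2 ≤ Real.log (⌊x⌋₊ : ℕ) ^ 2 := pow_le_pow_left₀ (by positivity) hlow 2
    have h3 : (k : ℝ) ≤ (c / 4 * k * Real.log b) ^ 2 := by
      have h4 : (c / 4 * k * Real.log b) ^ 2 = k * (k * (c * Real.log b) ^ 2) / 16 := by ring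
      rw [h4]
      nlinarith
    exact h3.trans h2
  refine ⟨hsq, ?_, hf1, ?_⟩
  · have h1 : Real.log (⌊x⌋₊ : ℕ) ≤ Real.log x := Real.log_le_log (by linarith) hfx
    have h2 : (c + 2) * Real.log b ≤ k := by linarith
    calc Real.log (⌊x⌋₊ : ℕ) ≤ (c + 2) * k * Real.log b := h1.trans hlx2
      _ = ((c + 2) * Real.log b) * k := by ring
      _ ≤ k * k := mul_le_mul_of_nonneg_right h2 hk0.le
      _ = _ := by ring
  · have h1 : Real.log (⌊x⌋₊ : ℕ) ≤ (⌊x⌋₊ : ℕ) := by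
      have := Real.log_le_sub_one_of_pos (by linarith : (0 : ℝ) < (⌊x⌋₊ : ℕ))
      linarith
    have h0 : 0 ≤ Real.log (⌊x⌋₊ : ℕ) := Real.log_nonneg hfr
    have h2 : (k : ℝ) ≤ ((⌊x⌋₊ : ℕ) : ℝ) ^ 2 := hsq.trans (pow_le_pow_left₀ h0 h1 2)
    exact_mod_cast h2

/-- the energy of integers close to a random real number with a bounded moment -/
lemma en_mo (q : ℕ) (C₀ : ℝ) (Y : ℕ) (hY : 1 ≤ Y) (hq : 1 ≤ q) (s : Finset ℕ) (hs : (0 : ℝ) < s.card) (g : ℕ → ℝ)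
    (h : Mo q C₀ Y s (fun _ => 1 / (s.card : ℝ)) g) (v : {n // n ∈ s} → ℤ) (hv : ∀ i, |(v i : ℝ) - g i.1| ≤ 1) :
    (En q v : ℝ) * Y ≤ 8 * C₀ * (Fintype.card {n // n ∈ s} : ℝ) ^ (2 * q) := by
  classical
  obtain ⟨M, hM⟩ : ∃ M, M = 12 * q * Y := ⟨_, rfl⟩
  have hM1 : 1 ≤ M := by rw [hM]; exact Nat.mul_pos (by omega) (by omega)
  have hfc : Fintype.card {n // n ∈ s} = s.card := Fintype.card_coe _
  have h1 := En_near q v (fun i => g i.1) hv Y M hY hM1 (by rw [hM])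
  have h2 := h.mom
  rw [← hM] at h2
  obtain ⟨Z, hZ⟩ : ∃ Z : ℝ, Z = (s.card : ℝ) := ⟨_, rfl⟩
  rw [← hZ] at hs
  rw [hfc, ← hZ]
  refine h1.trans ?_
  have h3 : ∀ t : ℕ, ‖∑ i : {n // n ∈ s}, ee ((t : ℝ) / M * g i.1)‖ ^ (2 * q) =
      Z ^ (2 * q) * ‖∑ n ∈ s, ((1 / (s.card : ℝ) : ℝ) : ℂ) * ee ((t : ℝ) / M * g n)‖ ^ (2 * q) := by
    intro t
    have e1 : ∑ i : {n // n ∈ s}, ee ((t : ℝ) / M * g i.1) = ∑ n ∈ s, ee ((t : ℝ) / M * g n) := by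
      rw [← sum_coe_sort s (fun n => ee ((t : ℝ) / M * g n))]
    rw [e1, ← mul_sum, ← hZ, norm_mul, mul_pow, ← mul_assoc]
    have e4 : ‖(((1 / Z : ℝ)) : ℂ)‖ = 1 / Z := by
      rw [Complex.norm_real, Real.norm_eq_abs, abs_of_pos (by positivity)]
    rw [e4, ← mul_pow, mul_one_div_cancel hs.ne', one_pow, one_mul]
  simp only [h3]
  rw [← mul_sum]
  calc 8 * (Z ^ (2 * q) * ∑ t ∈ range Y, ‖∑ n ∈ s, ((1 / (s.card : ℝ) : ℝ) : ℂ) * ee ((t : ℝ) / M * g n)‖ ^ (2 * q)) ≤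
      8 * (Z ^ (2 * q) * C₀) := by
        apply mul_le_mul_of_nonneg_left _ (by norm_num)
        exact mul_le_mul_of_nonneg_left h2 (by positivity)
    _ = _ := by ring

/-- **All the even integers near the values** -/
theorem gold_sv (b : ℕ) (hb : 2 ≤ b) {c : ℝ} {φ : ℕ → ℝ → ℝ} (h : SV c φ) (A W U m₀ : ℕ) (ε : ℝ) (hε : 0 < ε) (Q : ℕ → Prop)
    (hQ : ∀ m : ℕ, m₀ ≤ m → 2 ∣ m → Pool.Agent.W93.PG.WinP ε A m → Q m) :
    ∃ k₀ : ℕ, ∀ k : ℕ, k₀ ≤ k → ∀ D : ℕ → Finset ℕ, (∀ i < k, D i ⊆ range b ∧ 2 ≤ (D i).card) →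
      ∀ P : ℕ → Prop, [DecidablePred P] →
      (∀ n, P n → ∃ m : ℕ, 0 < m ∧ Even m ∧ |(m : ℝ) - φ 0 n| ≤ (k : ℝ) ^ W ∧ ¬ Q m) →
      (((SD b D k).filter P).card : ℝ) ≤ (SD b D k).card / (k : ℝ) ^ U := by
  classical
  obtain ⟨q, k₁, C₀, M₀, hq, hC₀, hM₀, hneg, hmo⟩ := mo_sv b hb h
  obtain ⟨K₀, hlog⟩ := log_sv b hb c h.pos
  obtain ⟨N₀, hnear⟩ := Pool.Agent.R459.near_even q A 2 1 (2 * (W + 1)) (2 * U) m₀ hq ε hε Q hQ
  obtain ⟨K₁, hK₁⟩ := exists_nat_ge ((8 * C₀) ^ 2)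
  refine ⟨N₀ ^ 2 + K₀ + K₁ + k₁ + 4, fun k hk D hD P _ hP => ?_⟩
  obtain ⟨hf1, hg1, hg2, hup, hmo⟩ := hmo k (by omega)
  obtain ⟨l1, l2, l3, l4⟩ := hlog k (by omega) _ hf1 hg1 hg2
  have hmo := hmo D hD
  obtain ⟨N, hN⟩ : ∃ N, N = ⌊φ 0 ((b : ℝ) ^ k)⌋₊ := ⟨_, rfl⟩
  rw [← hN] at l1 l2 l3 l4 hmo
  have hNN : N₀ ≤ N := by
    by_contra hcon
    push Not at hcon
    have : N ^ 2 ≤ N₀ ^ 2 := Nat.pow_le_pow_left hcon.le 2
    omega
  have hL0 : 0 ≤ Real.log N := Real.log_nonneg (by exact_mod_cast l3)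
  have hk4 : (4 : ℝ) ≤ k := by exact_mod_cast (by omega : 4 ≤ k)
  have hL1 : 1 ≤ Real.log N := by
    by_contra hcon
    push Not at hcon
    have : Real.log N ^ 2 ≤ 1 := pow_le_one₀ hL0 hcon.le
    linarith
  have hC8 : 8 * C₀ ≤ Real.log N := by
    have h1 : (8 * C₀) ^ 2 ≤ Real.log N ^ 2 := (hK₁.trans (by exact_mod_cast (by omega : K₁ ≤ k))).trans l1
    exact (pow_le_pow_iff_left₀ (by positivity) hL0 two_ne_zero).1 h1
  have hcard := SD_card_pos b hb D k hD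
  have hfc : Fintype.card {n // n ∈ SD b D k} = (SD b D k).card := Fintype.card_coe _
  obtain ⟨v, hv⟩ : ∃ v : {n // n ∈ SD b D k} → ℤ, ∀ i, v i = ⌊φ 0 (i.1 : ℕ)⌋ := ⟨_, fun _ => rfl⟩
  have hvf : ∀ i, |(v i : ℝ) - φ 0 (i.1 : ℕ)| ≤ 1 := by
    intro i
    rw [hv, abs_sub_comm, abs_of_nonneg (by linarith [Int.floor_le (φ 0 (i.1 : ℕ))])]
    linarith [Int.lt_floor_add_one (φ 0 (i.1 : ℕ))]
  have h1 := en_mo q C₀ N l3 hq (SD b D k) hcard (fun n => φ 0 n) hmo v hvf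
  have h2 := hnear N hNN {n // n ∈ SD b D k} v (fun i => by
      rw [hv, Int.floor_le_iff]
      have h3 : φ 0 (i.1 : ℕ) ≤ φ 0 ((b : ℝ) ^ k) := by
        apply hup
        have := i.2
        unfold SD at this
        exact mem_range.1 (mem_filter.1 this).1
      have h4 : φ 0 ((b : ℝ) ^ k) < N + 1 := by rw [hN]; exact Nat.lt_floor_add_one _
      have h5 : (1 : ℝ) ≤ N := by exact_mod_cast l3
      push_cast
      linarith) (by
      rw [pow_one]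
      refine h1.trans ?_
      apply mul_le_mul_of_nonneg_right hC8 (by positivity)) (univ.filter (fun i => P i.1)) (by
      intro i hi
      rw [mem_filter] at hi
      obtain ⟨m, hm1, hm2, hm3, hm4⟩ := hP i.1 hi.2
      refine ⟨m, hm1, hm2, ?_, hm4⟩
      push_cast
      have h5 : |(m : ℝ) - v i| ≤ (k : ℝ) ^ W + 1 := by
        have h6 : (m : ℝ) - v i = ((m : ℝ) - φ 0 (i.1 : ℕ)) - ((v i : ℝ) - φ 0 (i.1 : ℕ)) := by ring
        rw [h6]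
        refine (abs_sub _ _).trans ?_
        have := hvf i
        linarith
      refine h5.trans ?_
      have h7 : (k : ℝ) ^ W + 1 ≤ (k : ℝ) ^ (W + 1) := by
        have : (1 : ℝ) ≤ (k : ℝ) ^ W := one_le_pow₀ (by linarith)
        rw [pow_succ]
        nlinarith
      refine h7.trans ?_
      rw [pow_mul]
      exact pow_le_pow_left₀ (by linarith) l1 _)
  rw [hfc] at h2
  have h8 : (((SD b D k).filter P).card : ℝ) ≤ ((univ.filter (fun i : {n // n ∈ SD b D k} => P i.1)).card : ℝ) := by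
    apply Nat.cast_le.2
    have e1 : ((SD b D k).filter P) ⊆ ((univ : Finset {n // n ∈ SD b D k}).filter (fun i => P i.1)).image (fun i => i.1) := by
      intro n hn
      rw [mem_filter] at hn
      rw [mem_image]
      exact ⟨⟨n, hn.1⟩, mem_filter.2 ⟨mem_univ _, hn.2⟩, rfl⟩
    exact (card_le_card e1).trans card_image_le
  refine h8.trans (h2.trans ?_)
  apply div_le_div_of_nonneg_left (Nat.cast_nonneg _) (by positivity)
  rw [pow_mul]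
  exact pow_le_pow_left₀ (by linarith) l1 U

end Pool.Agent.HP25.NI
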