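import Pool.Agent.HP25.OS.F
import Pool.Agent.HP25.NI.E

set_option autoImplicit false

/-! All integers close to random real numbers with bounded moments; the case of smoothly varying functions of non-integral
order at integers with restricted digits. -/

namespace Pool.Agent.HP25.NI
open Finset
open Pool.Agent.H807R2.Dav
open Pool.Agent.H373R2.T7
open Pool.Agent.W93.DG
open Pool.Agent.TH872.Sq
open Pool.Agent.HP25.PD
open Pool.Agent.HP25.OS
open Pool.Agent.N193.PS (SV)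

open Classical in
theorem near_gen (r : ℕ) (q : Fin r → ℕ) (C₀ : Fin r → ℝ) (T W U : ℕ) (hT : 1 ≤ T) :
    ∃ (F W' U' : ℕ), U ≤ U' ∧
    ∃ N₁ : ℕ, ∀ N : ℕ, N₁ ≤ N → ∀ P : (Fin r → ℕ) → Prop,
    (∀ (Ω : Fin r → Finset ℕ) (p : Fin r → ℕ → ℝ), (∀ i, NL (q i) (C₀ i) F T W' N (Ω i) (p i)) → (∀ i, ∀ v ∈ Ω i, 0 ≤ p i v) →
      ∑ m ∈ Fintype.piFinset Ω, (if P m then ∏ i, p i (m i) else 0) ≤ 1 / Real.log N ^ U') →
    ∀ (Y : Fin r → ℕ) (S : Fin r → Finset ℕ) (f : Fin r → ℕ → ℝ), (∀ i, Y i ≤ T * N ∧ N ≤ T * Y i) → (∀ i, 1 ≤ (S i).card) →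
    (∀ i, Mo (q i) (C₀ i) (Y i) (S i) (fun _ => 1 / ((S i).card : ℝ)) (f i)) →
    (∀ i, ∀ n ∈ S i, -Real.log N ^ W ≤ f i n ∧ f i n ≤ T * N) →
    (((Fintype.piFinset S).filter (fun n =>
      ∃ a : Fin r → ℕ, (∀ i, |(a i : ℝ) - f i (n i)| ≤ Real.log N ^ W) ∧ P a)).card : ℝ) ≤
      ((Fintype.piFinset S).card : ℝ) / Real.log N ^ U := by
  refine ⟨T * T + 2, 2 * W + 2, U + (W + 1) * r, by omega, ?_⟩
  obtain ⟨K₀, hK₀⟩ := logs T 1 (2 * W + 2) hT le_rfl 64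
  obtain ⟨N2, hN2⟩ := exists_nat_ge (Real.exp 8)
  refine ⟨T * K₀ + N2 + 1, fun N hN P hP Y S f hk hS1 hmo hfr => ?_⟩
  obtain ⟨L, hL⟩ : ∃ L, L = Real.log N := ⟨_, rfl⟩
  have hN0 : (0 : ℝ) < N := by exact_mod_cast (by omega : 0 < N)
  have hL8 : 8 ≤ L := by
    rw [hL, Real.le_log_iff_exp_le hN0]
    refine hN2.trans ?_
    exact_mod_cast (by omega : N2 ≤ N)
  rw [← hL] at hfr hP ⊢
  have hScard : ∀ i, (0 : ℝ) < (S i).card := fun i => by
    exact_mod_cast hS1 i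
  -- the offsets
  obtain ⟨H, hH⟩ : ∃ H : ℕ, H = ⌈L ^ W⌉₊ + 1 := ⟨_, rfl⟩
  have hLW : 1 ≤ L ^ W := one_le_pow₀ (by linarith)
  have hH1 : L ^ W + 1 ≤ H := by
    rw [hH]
    push_cast
    linarith [Nat.le_ceil (L ^ W)]
  have hH2 : (H : ℝ) ≤ L ^ W + 2 := by
    rw [hH]
    push_cast
    linarith [(Nat.ceil_lt_add_one (by positivity : 0 ≤ L ^ W)).le]
  obtain ⟨O, hO⟩ : ∃ O : Finset (Fin r → ℤ), O = Fintype.piFinset (fun _ : Fin r => Icc (-(H : ℤ)) H) := ⟨_, rfl⟩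
  have hOcard : (O.card : ℝ) ≤ (L ^ (W + 1)) ^ r := by
    rw [hO, Fintype.card_piFinset, prod_const, card_univ, Fintype.card_fin]
    push_cast
    apply pow_le_pow_left₀ (by positivity)
    rw [Int.card_Icc]
    have h1 : ((H : ℤ) + 1 - -(H : ℤ)).toNat = 2 * H + 1 := by omega
    rw [h1, pow_succ]
    push_cast
    nlinarith
  obtain ⟨φ, hφ⟩ : ∃ φ : (Fin r → ℤ) → Fin r → ℕ → ℕ, ∀ h i n, φ h i n = (⌊f i n⌋ + h i).toNat := ⟨_, fun _ _ _ => rfl⟩
  obtain ⟨bad, hbad⟩ : ∃ bad : (Fin r → ℤ) → Finset (Fin r → ℕ), ∀ h, bad h =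
    (Fintype.piFinset S).filter (fun n => P (fun i => φ h i (n i))) := ⟨_, fun _ => rfl⟩
  -- one offset
  have hone : ∀ h ∈ O, ((bad h).card : ℝ) * ∏ i, (1 / ((S i).card : ℝ)) ≤ 1 / L ^ (U + (W + 1) * r) := by
    intro h hh
    rw [hO, Fintype.mem_piFinset] at hh
    obtain ⟨p', hp'⟩ : ∃ p' : Fin r → ℕ → ℝ, ∀ i v, p' i v = ∑ n ∈ (S i).filter (fun n => φ h i n = v), 1 / ((S i).card : ℝ) :=
      ⟨_, fun _ _ => rfl⟩
    have h1 := hP (fun i => (S i).image (φ h i)) p' (fun i => by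
        obtain ⟨Y', hY⟩ : ∃ Y', Y' = Y i := ⟨_, rfl⟩
        obtain ⟨hk1, hk2⟩ := hk i
        rw [← hY] at hk1 hk2
        have hYK : K₀ ≤ Y' := by
          by_contra hcon
          push Not at hcon
          have : T * Y' ≤ T * K₀ := Nat.mul_le_mul_left _ hcon.le
          omega
        obtain ⟨l1, -, -, l4, -, -, -, -, -, l10⟩ := hK₀ Y' hYK N hk2 hk1
        obtain ⟨kk, hkk⟩ : ∃ kk, kk = Nat.log 2 Y' := ⟨_, rfl⟩
        rw [← hkk] at l1 l4 l10
        rw [← hL] at l4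
        have hwin : (H : ℝ) + 1 ≤ (kk : ℝ) ^ (2 * W + 2) := by
          have g1 : L ^ W ≤ (kk : ℝ) ^ (2 * W) := by
            rw [pow_mul]
            exact pow_le_pow_left₀ (by linarith) l4 W
          have g2 : (1 : ℝ) ≤ (kk : ℝ) ^ (2 * W) := one_le_pow₀ (by linarith)
          rw [pow_add]
          nlinarith
        refine ⟨Y', S i, fun _ => 1 / ((S i).card : ℝ), fun n => f i n, φ h i, hk2, hk1, ?_, ?_, ?_, rfl, fun v => hp' i v⟩
        · rw [hY]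
          exact hmo i
        · intro n hn
          obtain ⟨r1, -⟩ := hfr i n hn
          rw [← hkk]
          refine le_trans ?_ hwin
          have hfl1 := Int.floor_le (f i n)
          have hfl2 := Int.lt_floor_add_one (f i n)
          have hhi := mem_Icc.1 (hh i)
          have hh1 : -(H : ℝ) ≤ (h i : ℝ) := by exact_mod_cast hhi.1
          have hh2 : (h i : ℝ) ≤ H := by exact_mod_cast hhi.2
          rw [hφ]
          rcases le_total 0 (⌊f i n⌋ + h i) with g | g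
          · have e1 : (((⌊f i n⌋ + h i).toNat : ℕ) : ℝ) = (⌊f i n⌋ : ℝ) + h i := by
              have : (((⌊f i n⌋ + h i).toNat : ℕ) : ℤ) = ⌊f i n⌋ + h i := Int.toNat_of_nonneg g
              exact_mod_cast this
            rw [e1, abs_le]
            constructor <;> linarith
          · rw [Int.toNat_of_nonpos g, Nat.cast_zero, zero_sub, abs_neg, abs_le]
            have g' : (⌊f i n⌋ : ℝ) + h i ≤ 0 := by exact_mod_cast g
            constructor <;> linarith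
        · intro n hn
          obtain ⟨-, r2⟩ := hfr i n hn
          have hhi := mem_Icc.1 (hh i)
          have hh2 : (h i : ℝ) ≤ H := by exact_mod_cast hhi.2
          have hfl1 := Int.floor_le (f i n)
          have hHY : (H : ℝ) + 1 ≤ Y' := hwin.trans (by exact_mod_cast l10)
          have hTN : (N : ℝ) ≤ T * Y' := by exact_mod_cast hk2
          have g1 : ((⌊f i n⌋ + h i : ℤ) : ℝ) ≤ (((T * T + 2) * Y' : ℕ) : ℝ) := by
            push_cast
            have : (T : ℝ) * N ≤ T * (T * Y') := mul_le_mul_of_nonneg_left hTN (Nat.cast_nonneg _)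
            nlinarith
          have g2 : (⌊f i n⌋ + h i : ℤ) ≤ (((T * T + 2) * Y' : ℕ) : ℤ) := by exact_mod_cast g1
          rw [hφ, Int.toNat_le]
          exact g2) (fun i v _ => by
        rw [hp']
        exact sum_nonneg fun _ _ => by positivity)
    have h2 := pi_fiber S (fun i _ => 1 / ((S i).card : ℝ)) (φ h) p' hp' (fun m => if P m then 1 else 0)
    have h3 : ∑ m ∈ Fintype.piFinset (fun i => (S i).image (φ h i)), (if P m then ∏ i, p' i (m i) else 0) =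
        ∑ m ∈ Fintype.piFinset (fun i => (S i).image (φ h i)), (if P m then (1 : ℝ) else 0) * ∏ i, p' i (m i) := by
      apply sum_congr rfl
      intro m _
      split_ifs
      · rw [one_mul]
      · rw [zero_mul]
    rw [h3, h2] at h1
    refine le_trans (le_of_eq ?_) h1
    rw [← sum_mul, ← sum_filter, sum_const, nsmul_eq_mul, mul_one, ← hbad]
  -- the union
  have hsub : (Fintype.piFinset S).filter (fun n => ∃ a : Fin r → ℕ, (∀ i, |(a i : ℝ) - f i (n i)| ≤ L ^ W) ∧ P a) ⊆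
      O.biUnion bad := by
    intro n hn
    rw [mem_filter] at hn
    obtain ⟨hn, a, ha, hPa⟩ := hn
    rw [mem_biUnion]
    refine ⟨fun i => (a i : ℤ) - ⌊f i (n i)⌋, ?_, ?_⟩
    · rw [hO, Fintype.mem_piFinset]
      intro i
      rw [mem_Icc]
      have g1 := abs_le.1 (ha i)
      have hfl1 := Int.floor_le (f i (n i))
      have hfl2 := Int.lt_floor_add_one (f i (n i))
      constructor
      · have : (-(H : ℝ)) ≤ (((a i : ℤ) - ⌊f i (n i)⌋ : ℤ) : ℝ) := by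
          push_cast
          linarith [g1.1]
        exact_mod_cast this
      · have : (((a i : ℤ) - ⌊f i (n i)⌋ : ℤ) : ℝ) ≤ (H : ℝ) := by
          push_cast
          linarith [g1.2]
        exact_mod_cast this
    · rw [hbad, mem_filter]
      refine ⟨hn, ?_⟩
      have e1 : (fun i => φ (fun i => (a i : ℤ) - ⌊f i (n i)⌋) i (n i)) = a := by
        funext i
        rw [hφ]
        have : ⌊f i (n i)⌋ + ((a i : ℤ) - ⌊f i (n i)⌋) = (a i : ℤ) := by ring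
        rw [this, Int.toNat_natCast]
      rw [e1]
      exact hPa
  obtain ⟨Pr, hPr⟩ : ∃ Pr : ℝ, Pr = ∏ i, ((S i).card : ℝ) := ⟨_, rfl⟩
  have hPr0 : 0 < Pr := by rw [hPr]; exact prod_pos fun i _ => hScard i
  have hPr1 : ∏ i, (1 / ((S i).card : ℝ)) = 1 / Pr := by
    rw [hPr, prod_div_distrib, prod_const_one]
  have hcard : ((Fintype.piFinset S).card : ℝ) = Pr := by
    rw [hPr, Fintype.card_piFinset]
    push_cast
    rfl
  rw [hPr1] at hone
  rw [hcard]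
  calc (((Fintype.piFinset S).filter (fun n => ∃ a : Fin r → ℕ, (∀ i, |(a i : ℝ) - f i (n i)| ≤ L ^ W) ∧ P a)).card : ℝ) ≤
      ((O.biUnion bad).card : ℝ) := by exact_mod_cast card_le_card hsub
    _ ≤ ∑ h ∈ O, ((bad h).card : ℝ) := by exact_mod_cast card_biUnion_le
    _ ≤ ∑ _h ∈ O, Pr / L ^ (U + (W + 1) * r) := by
        apply sum_le_sum
        intro h hh
        have h1 := hone h hh
        rw [mul_one_div, div_le_iff₀ hPr0] at h1
        refine h1.trans (le_of_eq ?_)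
        ring
    _ = O.card * (Pr / L ^ (U + (W + 1) * r)) := by rw [sum_const, nsmul_eq_mul]
    _ ≤ (L ^ (W + 1)) ^ r * (Pr / L ^ (U + (W + 1) * r)) := by
        apply mul_le_mul_of_nonneg_right hOcard (by positivity)
    _ = _ := by
        rw [← pow_mul, pow_add]
        field_simp



open Classical in
theorem near_svs (r : ℕ) (b : Fin r → ℕ) (hb : ∀ i, 2 ≤ b i) (c : Fin r → ℝ) (φ : Fin r → ℕ → ℝ → ℝ)
    (hφ : ∀ i, SV (c i) (φ i)) (T W U : ℕ) (hT : 1 ≤ T) :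
    ∃ (q : Fin r → ℕ) (C₀ : Fin r → ℝ) (F T' W' U' : ℕ), (∀ i, 1 ≤ q i) ∧ (∀ i, 0 < C₀ i) ∧ T ≤ T' ∧ U ≤ U' ∧
    ∃ N₁ : ℕ, ∀ N : ℕ, N₁ ≤ N → ∀ P : (Fin r → ℕ) → Prop,
    (∀ (Ω : Fin r → Finset ℕ) (p : Fin r → ℕ → ℝ), (∀ i, NL (q i) (C₀ i) F T' W' N (Ω i) (p i)) → (∀ i, ∀ v ∈ Ω i, 0 ≤ p i v) →
      ∑ m ∈ Fintype.piFinset Ω, (if P m then ∏ i, p i (m i) else 0) ≤ 1 / Real.log N ^ U') →
    ∀ k : Fin r → ℕ, (∀ i, φ i 0 ((b i : ℝ) ^ k i) ≤ T * N ∧ N ≤ T * φ i 0 ((b i : ℝ) ^ k i)) →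
    ∀ D : Fin r → ℕ → Finset ℕ, (∀ i, ∀ j < k i, D i j ⊆ range (b i) ∧ 2 ≤ (D i j).card) →
    (∀ i, ∀ n ∈ SD (b i) (D i) (k i), φ i 0 n ≤ T * N) ∧
    (((Fintype.piFinset (fun i => SD (b i) (D i) (k i))).filter (fun n =>
      ∃ a : Fin r → ℕ, (∀ i, |(a i : ℝ) - φ i 0 (n i)| ≤ Real.log N ^ W) ∧ P a)).card : ℝ) ≤
      ((Fintype.piFinset (fun i => SD (b i) (D i) (k i))).card : ℝ) / Real.log N ^ U := by
  choose q k₁ C₀ M₀ hq hC₀ hM₀ hneg hmo using fun i => mo_sv (b i) (hb i) (hφ i)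
  obtain ⟨F, W', U', hUU, N₁, hgen⟩ := near_gen r q C₀ (2 * T) (W + 1) U (by omega)
  obtain ⟨M₁, hM₁⟩ := exists_nat_ge (∑ i, ∑ k ∈ range (k₁ i), |φ i 0 ((b i : ℝ) ^ k)|)
  obtain ⟨M₂, hM₂⟩ := exists_nat_ge (Real.exp (∑ i, M₀ i + 1))
  refine ⟨q, C₀, F, 2 * T, W', U', hq, hC₀, by omega, hUU, N₁ + T * M₁ + M₂ + 1, fun N hN P hP k hk D hD => ?_⟩
  have hTr : (1 : ℝ) ≤ T := by exact_mod_cast hT
  have hN0 : (0 : ℝ) < N := by exact_mod_cast (by omega : 0 < N)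
  have hlog : ∑ i, M₀ i + 1 ≤ Real.log N := by
    rw [Real.le_log_iff_exp_le hN0]
    exact hM₂.trans (by exact_mod_cast (by omega : M₂ ≤ N))
  have hM₀s : ∀ i, M₀ i ≤ ∑ i, M₀ i := fun i => single_le_sum (f := M₀) (fun j _ => hM₀ j) (mem_univ i)
  have hsum0 : 0 ≤ ∑ i, M₀ i := sum_nonneg fun j _ => hM₀ j
  have hl1 : 1 ≤ Real.log N := by linarith
  have hkk : ∀ i, k₁ i ≤ k i := by
    intro i
    by_contra hcon
    push Not at hcon
    have h1 : |φ i 0 ((b i : ℝ) ^ k i)| ≤ M₁ := by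
      refine le_trans ?_ hM₁
      have h2 : |φ i 0 ((b i : ℝ) ^ k i)| ≤ ∑ k ∈ range (k₁ i), |φ i 0 ((b i : ℝ) ^ k)| :=
        single_le_sum (f := fun k => |φ i 0 ((b i : ℝ) ^ k)|) (fun _ _ => abs_nonneg _) (mem_range.2 hcon)
      exact h2.trans (single_le_sum (f := fun i => ∑ k ∈ range (k₁ i), |φ i 0 ((b i : ℝ) ^ k)|)
        (fun _ _ => sum_nonneg fun _ _ => abs_nonneg _) (mem_univ i))
    have h3 : (N : ℝ) ≤ T * M₁ := (hk i).2.trans (mul_le_mul_of_nonneg_left ((le_abs_self _).trans h1) (by linarith))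
    have h4 : N ≤ T * M₁ := by exact_mod_cast h3
    omega
  have hup : ∀ i, ∀ n ∈ SD (b i) (D i) (k i), φ i 0 n ≤ T * N := by
    intro i n hn
    refine le_trans ?_ (hk i).1
    apply (hmo i (k i) (hkk i)).2.2.2.1
    unfold SD at hn
    exact mem_range.1 (mem_filter.1 hn).1
  refine ⟨hup, ?_⟩
  have key := hgen N (by omega) P hP (fun i => ⌊φ i 0 ((b i : ℝ) ^ k i)⌋₊) (fun i => SD (b i) (D i) (k i)) (fun i n => φ i 0 n)
    (fun i => by
      have hf1 := (hmo i (k i) (hkk i)).1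
      have g1 : ((⌊φ i 0 ((b i : ℝ) ^ k i)⌋₊ : ℕ) : ℝ) ≤ φ i 0 ((b i : ℝ) ^ k i) := Nat.floor_le (by linarith)
      have g2 := (Nat.lt_floor_add_one (φ i 0 ((b i : ℝ) ^ k i))).le
      have g3 : (1 : ℝ) ≤ ((⌊φ i 0 ((b i : ℝ) ^ k i)⌋₊ : ℕ) : ℝ) := by exact_mod_cast (Nat.one_le_floor_iff _).2 hf1
      constructor
      · have : ((⌊φ i 0 ((b i : ℝ) ^ k i)⌋₊ : ℕ) : ℝ) ≤ ((2 * T * N : ℕ) : ℝ) := by
          push_cast
          have := (hk i).1
          nlinarith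
        exact_mod_cast this
      · have : (N : ℝ) ≤ ((2 * T * ⌊φ i 0 ((b i : ℝ) ^ k i)⌋₊ : ℕ) : ℝ) := by
          push_cast
          refine (hk i).2.trans ?_
          have : φ i 0 ((b i : ℝ) ^ k i) ≤ 2 * ((⌊φ i 0 ((b i : ℝ) ^ k i)⌋₊ : ℕ) : ℝ) := by linarith
          have := mul_le_mul_of_nonneg_left this (by linarith : (0 : ℝ) ≤ T)
          linarith
        exact_mod_cast this) (fun i => by
      have := SD_card_pos (b i) (hb i) (D i) (k i) (hD i)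
      exact_mod_cast this) (fun i => (hmo i (k i) (hkk i)).2.2.2.2 (D i) (hD i)) (fun i n hn => by
      refine ⟨?_, ?_⟩
      · have h1 : Real.log N ≤ Real.log N ^ (W + 1) := le_self_pow₀ hl1 (by omega)
        have h2 := hneg i n
        have h3 := hM₀s i
        linarith
      · have h1 := hup i n hn
        push_cast
        nlinarith)
  refine le_trans (Nat.cast_le.2 (card_le_card ?_)) key
  intro n hn
  rw [mem_filter] at hn ⊢
  obtain ⟨h1, a, h2, h3⟩ := hn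
  refine ⟨h1, a, fun i => (h2 i).trans ?_, h3⟩
  exact pow_le_pow_right₀ hl1 (by omega)

end Pool.Agent.HP25.NI
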