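import Pool.Agent.HP25.NI.C
import Pool.Agent.HP25.OS.E
import Pool.Agent.N193.PS.Sv

set_option autoImplicit false

/-! Smoothly varying functions of non-integral order at integers with restricted digits. -/

namespace Pool.Agent.HP25.NI
open Finset Filter Topology
open Pool.Agent.H807R2.Dav
open Pool.Agent.TH872.Sq
open Pool.Agent.HP25.PD
open Pool.Agent.HP25.OS (Mo)
open Pool.Agent.N193.PS (SV)

variable {c : ℝ} {φ : ℕ → ℝ → ℝ}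

lemma const_ev (C p : ℝ) (hp : 0 < p) : ∀ᶠ y : ℝ in atTop, C ≤ y ^ p :=
  (tendsto_rpow_atTop hp).eventually_ge_atTop C

lemma poly_up (h : SV c φ) : ∀ᶠ t : ℝ in atTop, φ 0 t ≤ t ^ (c + 2) := by
  obtain ⟨t₁, ht1, hup⟩ := h.up 1 one_pos
  filter_upwards [eventually_ge_atTop t₁, const_ev (φ 0 t₁) 1 one_pos] with t h1 h2
  have h3 := (hup t₁ t le_rfl h1)
  have ht0 : 0 < t := by linarith
  calc φ 0 t ≤ φ 0 t₁ * (t / t₁) ^ (c + 1) := h3.2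
    _ ≤ t ^ (1 : ℝ) * t ^ (c + 1) := by
        apply mul_le_mul h2 _ (by positivity) (by positivity)
        apply Real.rpow_le_rpow (by positivity) _ (by linarith [h.pos])
        exact div_le_self ht0.le ht1
    _ = t ^ (c + 2) := by
        rw [← Real.rpow_add ht0]
        congr 1
        ring

lemma poly_low (h : SV c φ) (ε : ℝ) (hε : 0 < ε) : ∀ᶠ t : ℝ in atTop, t ^ (c - ε) ≤ φ 0 t := by
  obtain ⟨t₁, ht1, hlo⟩ := h.low (ε / 2) (by linarith)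
  have h1 := (hlo t₁ t₁ le_rfl le_rfl).1
  have hK : 0 < φ 0 t₁ * t₁ ^ (-(c - ε / 2)) := mul_pos h1 (Real.rpow_pos_of_pos (by linarith) _)
  filter_upwards [eventually_ge_atTop t₁, const_ev (φ 0 t₁ * t₁ ^ (-(c - ε / 2)))⁻¹ (ε / 2) (by linarith)] with t h2 h3
  have ht0 : 0 < t := by linarith
  have h4 := (hlo t₁ t le_rfl h2).2
  refine le_trans ?_ h4
  rw [Real.div_rpow ht0.le (by linarith), div_eq_mul_inv, ← Real.rpow_neg (by linarith : (0 : ℝ) ≤ t₁)]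
  rw [inv_le_iff_one_le_mul₀ hK] at h3
  calc t ^ (c - ε) = t ^ (c - ε) * 1 := (mul_one _).symm
    _ ≤ t ^ (c - ε) * (t ^ (ε / 2) * (φ 0 t₁ * t₁ ^ (-(c - ε / 2)))) := mul_le_mul_of_nonneg_left (by linarith) (by positivity)
    _ = (t ^ (c - ε) * t ^ (ε / 2)) * (φ 0 t₁ * t₁ ^ (-(c - ε / 2))) := by ring
    _ = t ^ (c - ε / 2) * (φ 0 t₁ * t₁ ^ (-(c - ε / 2))) := by
        rw [← Real.rpow_add ht0]
        congr 2
        ring
    _ = _ := by ring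

/-- the function satisfies the conditions on the derivatives -/
lemma reg_sv (b : ℕ) (hb : 2 ≤ b) (h : SV c φ) : ∃ (e c' K₀ : ℕ) (c₁ c₂ : ℝ), 0 < c₁ ∧ 0 < c₂ ∧
    (∀ K, K₀ ≤ K → 1 ≤ φ 0 ((b : ℝ) ^ K)) ∧
    (∀ K, K₀ ≤ K → ∀ t : ℝ, (b : ℝ) ^ K₀ ≤ t → t ≤ (b : ℝ) ^ K → 0 < φ 0 t ∧ φ 0 t ≤ φ 0 ((b : ℝ) ^ K)) ∧
    (∀ K, K₀ ≤ K → (b : ℝ) ^ (c / 2 * K) ≤ φ 0 ((b : ℝ) ^ K) ∧ φ 0 ((b : ℝ) ^ K) ≤ (b : ℝ) ^ ((c + 2) * K)) ∧
    Reg b e c' K₀ c₁ c₂ φ (fun K => if K₀ ≤ K then φ 0 ((b : ℝ) ^ K) else 1) := by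
  have hc := h.pos
  have hb2 : (2 : ℝ) ≤ b := by exact_mod_cast hb
  have hb0 : (0 : ℝ) < b := by linarith
  have hb1 : (1 : ℝ) ≤ b := by linarith
  obtain ⟨n₀, hn₀⟩ := exists_nat_ge c
  obtain ⟨e, he⟩ : ∃ e, e = n₀ + 1 := ⟨_, rfl⟩
  obtain ⟨t₀, hder⟩ := h.der
  obtain ⟨P₀, hP₀⟩ : ∃ P₀, P₀ = ∏ i ∈ range (e + 2), (c - i) := ⟨_, rfl⟩
  obtain ⟨P₁, hP₁⟩ : ∃ P₁, P₁ = ∏ i ∈ range (e + 3), (c - i) := ⟨_, rfl⟩
  have hP0 : P₀ ≠ 0 := by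
    rw [hP₀, prod_ne_zero_iff]
    intro i _
    exact sub_ne_zero.2 (h.nat i)
  have hP0' : 0 < |P₀| := abs_pos.2 hP0
  have hlim1 := (h.lim (e + 2)).abs
  have hlim2 := (h.lim (e + 3)).abs
  rw [← hP₀] at hlim1
  rw [← hP₁] at hlim2
  have e1 := hlim1.eventually_const_lt (show |P₀| / 2 < |P₀| by linarith)
  have e2 := hlim1.eventually_lt_const (show |P₀| < |P₀| + 1 by linarith)
  have e3 := hlim2.eventually_lt_const (show |P₁| < |P₁| + 1 by linarith)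
  obtain ⟨t₁, ht₁, hup⟩ := h.up 1 one_pos
  obtain ⟨t₂, ht₂, hlow⟩ := h.low (c / 2) (by linarith)
  have e4 := poly_up h
  have e5 := poly_low h (c / 2) (by linarith)
  obtain ⟨t₃, ht₃⟩ := eventually_atTop.mp (e1.and (e2.and (e3.and (e4.and e5))))
  obtain ⟨K₀, hK₀⟩ := exists_nat_ge (max t₀ (max t₁ (max t₂ (max t₃ 1))))
  have hbK : ∀ K, K₀ ≤ K → max t₀ (max t₁ (max t₂ (max t₃ 1))) ≤ (b : ℝ) ^ K := by
    intro K hK
    refine hK₀.trans ?_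
    have h1 : K₀ ≤ b ^ K := hK.trans (Nat.lt_pow_self (by omega)).le
    exact_mod_cast h1
  have hT : ∀ t : ℝ, (b : ℝ) ^ K₀ ≤ t → t₀ ≤ t ∧ t₁ ≤ t ∧ t₂ ≤ t ∧ t₃ ≤ t ∧ 1 ≤ t := by
    intro t ht
    have h1 := (hbK K₀ le_rfl).trans ht
    simp only [max_le_iff] at h1
    exact h1
  obtain ⟨c', hc'⟩ := exists_nat_ge (c + 1)
  have hmono : ∀ t s : ℝ, (b : ℝ) ^ K₀ ≤ t → t ≤ s → 0 < φ 0 t ∧ φ 0 t ≤ φ 0 s := by
    intro t s ht hts
    obtain ⟨a1, a2⟩ := hlow t s (hT t ht).2.2.1 hts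
    refine ⟨a1, ?_⟩
    have ht0 : 0 < t := by linarith [(hT t ht).2.2.2.2]
    have h2 : 1 ≤ (s / t) ^ (c - c / 2) := Real.one_le_rpow (by rw [le_div_iff₀ ht0]; linarith) (by linarith)
    calc φ 0 t = φ 0 t * 1 := (mul_one _).symm
      _ ≤ φ 0 t * (s / t) ^ (c - c / 2) := mul_le_mul_of_nonneg_left h2 a1.le
      _ ≤ _ := a2
  have hgrow : ∀ t s : ℝ, (b : ℝ) ^ K₀ ≤ t → t ≤ s → s ≤ b * t → φ 0 s ≤ (b : ℝ) ^ c' * φ 0 t := by
    intro t s ht hts hst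
    obtain ⟨a1, a2⟩ := hup t s (hT t ht).2.1 hts
    have ht0 : 0 < t := by linarith [(hT t ht).2.2.2.2]
    have h2 : (s / t) ^ (c + 1) ≤ (b : ℝ) ^ c' := by
      calc (s / t) ^ (c + 1) ≤ (b : ℝ) ^ (c + 1) := by
            apply Real.rpow_le_rpow (by apply div_nonneg <;> linarith) _ (by linarith)
            rw [div_le_iff₀ ht0]
            exact hst
        _ ≤ (b : ℝ) ^ (c' : ℝ) := Real.rpow_le_rpow_of_exponent_le hb1 hc'
        _ = _ := Real.rpow_natCast _ _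
    calc φ 0 s ≤ φ 0 t * (s / t) ^ (c + 1) := a2
      _ ≤ φ 0 t * (b : ℝ) ^ c' := mul_le_mul_of_nonneg_left h2 a1.le
      _ = _ := mul_comm _ _
  have hge1 : ∀ K, K₀ ≤ K → 1 ≤ φ 0 ((b : ℝ) ^ K) := by
    intro K hK
    have hbb : (b : ℝ) ^ K₀ ≤ (b : ℝ) ^ K := pow_le_pow_right₀ hb1 hK
    obtain ⟨-, -, -, g4, g5⟩ := hT _ hbb
    have h5 := (ht₃ _ g4).2.2.2.2
    refine le_trans ?_ h5
    exact Real.one_le_rpow g5 (by linarith)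
  have hpw : ∀ (K : ℕ) (x : ℝ), ((b : ℝ) ^ K) ^ x = (b : ℝ) ^ (x * K) := by
    intro K x
    rw [← Real.rpow_natCast, ← Real.rpow_mul hb0.le, mul_comm]
  -- the data on a block
  have hblock : ∀ K, K₀ ≤ K → ∀ t : ℝ, (b : ℝ) ^ K ≤ t → t ≤ (b : ℝ) ^ (K + 1) →
      0 < t ∧ t ≤ (b : ℝ) ^ (K + 1) ∧ (b : ℝ) ^ (K + 1) ≤ b * t ∧ 0 < φ 0 t ∧ φ 0 t ≤ φ 0 ((b : ℝ) ^ (K + 1)) ∧
      φ 0 ((b : ℝ) ^ (K + 1)) ≤ (b : ℝ) ^ c' * φ 0 t ∧
      |P₀| / 2 * φ 0 t ≤ |φ (e + 2) t| * t ^ (e + 2) ∧ |φ (e + 2) t| * t ^ (e + 2) ≤ (|P₀| + 1) * φ 0 t ∧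
      |φ (e + 3) t| * t ^ (e + 3) ≤ (|P₁| + 1) * φ 0 t := by
    intro K hK t ht ht'
    have hbb : (b : ℝ) ^ K₀ ≤ t := (pow_le_pow_right₀ hb1 hK).trans ht
    obtain ⟨g1, g2, g3, g4, g5⟩ := hT t hbb
    obtain ⟨m1, m2⟩ := hmono t _ hbb ht'
    have ht0 : 0 < t := by linarith
    have hbt : (b : ℝ) ^ (K + 1) ≤ b * t := by
      rw [pow_succ, mul_comm]
      exact mul_le_mul_of_nonneg_left ht hb0.le
    have hd : ∀ m : ℕ, |t ^ m * φ m t / φ 0 t| = |φ m t| * t ^ m / φ 0 t := by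
      intro m
      rw [abs_div, abs_mul, abs_of_pos m1, abs_of_pos (by positivity : 0 < t ^ m), mul_comm]
    obtain ⟨f1, f2, f3, -, -⟩ := ht₃ t g4
    rw [hd, lt_div_iff₀ m1] at f1
    rw [hd, div_lt_iff₀ m1] at f2 f3
    exact ⟨ht0, ht', hbt, m1, m2, hgrow t _ hbb ht' hbt, f1.le, f2.le, f3.le⟩
  refine ⟨e, c', K₀, |P₀| / (2 * (b : ℝ) ^ c'), (|P₀| + |P₁| + 1) * (b : ℝ) ^ (e + 3), by positivity, by positivity, hge1,
    fun K hK t ht ht' => hmono t _ ht ht', fun K hK => ?_, ?_⟩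
  · have hbb : (b : ℝ) ^ K₀ ≤ (b : ℝ) ^ K := pow_le_pow_right₀ hb1 hK
    obtain ⟨-, -, -, g4, g5⟩ := hT _ hbb
    have h4 := (ht₃ _ g4).2.2.2.1
    have h5 := (ht₃ _ g4).2.2.2.2
    rw [hpw] at h4 h5
    have e6 : c - c / 2 = c / 2 := by ring
    rw [e6] at h5
    exact ⟨h5, h4⟩
  · refine ⟨?_, ?_, ?_, ?_, ?_, ?_, ?_⟩
    · intro i _ t ht
      exact hder i t (hT t ht).1
    · intro K hK t ht ht'
      obtain ⟨r1, r2, r3, r4, r5, r6, r7, r8, r9⟩ := hblock K hK t ht ht'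
      simp only [if_pos (by omega : K₀ ≤ K + 1)]
      calc |P₀| / (2 * (b : ℝ) ^ c') * φ 0 ((b : ℝ) ^ (K + 1)) ≤ |P₀| / (2 * (b : ℝ) ^ c') * ((b : ℝ) ^ c' * φ 0 t) :=
            mul_le_mul_of_nonneg_left r6 (by positivity)
        _ = |P₀| / 2 * φ 0 t := by field_simp
        _ ≤ |φ (e + 2) t| * t ^ (e + 2) := r7
        _ ≤ |φ (e + 2) t| * ((b : ℝ) ^ (K + 1)) ^ (e + 2) := mul_le_mul_of_nonneg_left (pow_le_pow_left₀ r1.le r2 _) (abs_nonneg _)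
        _ = _ := by rw [← pow_mul, mul_comm (K + 1)]
    · intro K hK t ht ht'
      obtain ⟨r1, r2, r3, r4, r5, r6, r7, r8, r9⟩ := hblock K hK t ht ht'
      simp only [if_pos (by omega : K₀ ≤ K + 1)]
      calc |φ (e + 2) t| * (b : ℝ) ^ ((e + 2) * (K + 1)) = |φ (e + 2) t| * ((b : ℝ) ^ (K + 1)) ^ (e + 2) := by
            rw [← pow_mul, mul_comm (K + 1)]
        _ ≤ |φ (e + 2) t| * (b * t) ^ (e + 2) := mul_le_mul_of_nonneg_left (pow_le_pow_left₀ (by positivity) r3 _) (abs_nonneg _)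
        _ = (|φ (e + 2) t| * t ^ (e + 2)) * (b : ℝ) ^ (e + 2) := by rw [mul_pow]; ring
        _ ≤ ((|P₀| + 1) * φ 0 t) * (b : ℝ) ^ (e + 2) := mul_le_mul_of_nonneg_right r8 (by positivity)
        _ ≤ ((|P₀| + |P₁| + 1) * φ 0 ((b : ℝ) ^ (K + 1))) * (b : ℝ) ^ (e + 3) := by
            apply mul_le_mul _ (pow_le_pow_right₀ hb1 (by omega)) (by positivity)
              (mul_nonneg (by positivity) (by linarith))
            exact mul_le_mul (by linarith [abs_nonneg P₁]) r5 r4.le (by positivity)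
        _ = _ := by ring
    · intro K hK t ht ht'
      obtain ⟨r1, r2, r3, r4, r5, r6, r7, r8, r9⟩ := hblock K hK t ht ht'
      simp only [if_pos (by omega : K₀ ≤ K + 1)]
      calc |φ (e + 3) t| * (b : ℝ) ^ ((e + 3) * (K + 1)) = |φ (e + 3) t| * ((b : ℝ) ^ (K + 1)) ^ (e + 3) := by
            rw [← pow_mul, mul_comm (K + 1)]
        _ ≤ |φ (e + 3) t| * (b * t) ^ (e + 3) := mul_le_mul_of_nonneg_left (pow_le_pow_left₀ (by positivity) r3 _) (abs_nonneg _)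
        _ = (|φ (e + 3) t| * t ^ (e + 3)) * (b : ℝ) ^ (e + 3) := by rw [mul_pow]; ring
        _ ≤ ((|P₁| + 1) * φ 0 t) * (b : ℝ) ^ (e + 3) := mul_le_mul_of_nonneg_right r9 (by positivity)
        _ ≤ ((|P₀| + |P₁| + 1) * φ 0 ((b : ℝ) ^ (K + 1))) * (b : ℝ) ^ (e + 3) := by
            apply mul_le_mul_of_nonneg_right _ (by positivity)
            exact mul_le_mul (by linarith [abs_nonneg P₀]) r5 r4.le (by positivity)
        _ = _ := by ring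
    · intro K
      split_ifs with hK
      · linarith [hge1 K hK]
      · exact one_pos
    · intro K hK
      simp only [if_pos (by omega : K₀ ≤ K + 1)]
      have hbb : (b : ℝ) ^ K₀ ≤ (b : ℝ) ^ (K + 1) := pow_le_pow_right₀ hb1 (by omega)
      obtain ⟨-, -, -, g4, g5⟩ := hT _ hbb
      have h4 := (ht₃ _ g4).2.2.2.1
      refine h4.trans ?_
      rw [pow_mul', ← Real.rpow_natCast ((b : ℝ) ^ (K + 1)) (e + 1)]
      apply Real.rpow_le_rpow_of_exponent_le g5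
      rw [he]
      push_cast
      linarith
    · intro K hK
      simp only [if_pos (by omega : K₀ ≤ K + 1), if_pos hK]
      have hbb : (b : ℝ) ^ K₀ ≤ (b : ℝ) ^ K := pow_le_pow_right₀ hb1 hK
      apply hgrow _ _ hbb (pow_le_pow_right₀ hb1 (by omega))
      rw [pow_succ, mul_comm]

/-- **The moments** of a smoothly varying function of non-integral order at the integers with restricted digits. -/
theorem mo_sv (b : ℕ) (hb : 2 ≤ b) (h : SV c φ) : ∃ (q k₁ : ℕ) (C₀ M₀ : ℝ), 1 ≤ q ∧ 0 < C₀ ∧ 0 ≤ M₀ ∧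
    (∀ n : ℕ, -M₀ ≤ φ 0 n) ∧
    ∀ k, k₁ ≤ k → 1 ≤ φ 0 ((b : ℝ) ^ k) ∧ (b : ℝ) ^ (c / 2 * k) ≤ φ 0 ((b : ℝ) ^ k) ∧ φ 0 ((b : ℝ) ^ k) ≤ (b : ℝ) ^ ((c + 2) * k) ∧
    (∀ n : ℕ, n < b ^ k → φ 0 n ≤ φ 0 ((b : ℝ) ^ k)) ∧
    ∀ D : ℕ → Finset ℕ, (∀ i < k, D i ⊆ range b ∧ 2 ≤ (D i).card) →
    Mo q C₀ ⌊φ 0 ((b : ℝ) ^ k)⌋₊ (SD b D k) (fun _ => 1 / ((SD b D k).card : ℝ)) (fun n => φ 0 n) := by
  classical
  obtain ⟨e, c', K₀, c₁, c₂, hc₁, hc₂, hge1, hmono, hgr, hR⟩ := reg_sv b hb h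
  have hb0 : 0 < b := by omega
  have hb1 : (1 : ℝ) ≤ b := by exact_mod_cast (by omega : 1 ≤ b)
  obtain ⟨q, hq, hmom⟩ := moment b hb (1 / 2) (by norm_num) (by norm_num) e c' c₁ c₂ hc₁ hc₂
  obtain ⟨B₀, hB₀⟩ := exists_nat_ge (φ 0 ((b : ℝ) ^ K₀))
  obtain ⟨C₀, hC₀, hmom⟩ := hmom B₀
  -- the small arguments
  obtain ⟨M₀, hM₀⟩ : ∃ M₀ : ℝ, M₀ = ∑ n ∈ range (b ^ K₀), |φ 0 (n : ℕ)| := ⟨_, rfl⟩
  have hM00 : 0 ≤ M₀ := by rw [hM₀]; exact sum_nonneg fun _ _ => abs_nonneg _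
  have hsmall : ∀ n : ℕ, n < b ^ K₀ → |φ 0 (n : ℕ)| ≤ M₀ := by
    intro n hn
    rw [hM₀]
    exact single_le_sum (f := fun n : ℕ => |φ 0 (n : ℕ)|) (fun _ _ => abs_nonneg _) (mem_range.2 hn)
  have hpos : ∀ n : ℕ, b ^ K₀ ≤ n → 0 < φ 0 n := by
    intro n hn
    have h1 : (b : ℝ) ^ K₀ ≤ n := by exact_mod_cast hn
    have h2 : (n : ℝ) ≤ (b : ℝ) ^ (n + K₀) := by
      have : n ≤ b ^ (n + K₀) := (Nat.lt_pow_self (by omega : 1 < b)).le.trans (Nat.pow_le_pow_right hb0 (by omega))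
      exact_mod_cast this
    exact (hmono (n + K₀) (by omega) n h1 h2).1
  -- the values are large
  have hlarge : ∃ k₁ : ℕ, ∀ k, k₁ ≤ k → M₀ ≤ (b : ℝ) ^ (c / 2 * k) := by
    have hc := h.pos
    have h1 : Tendsto (fun k : ℕ => (b : ℝ) ^ (c / 2 * k)) atTop atTop := by
      have h2 : (fun k : ℕ => (b : ℝ) ^ (c / 2 * k)) = fun k : ℕ => ((b : ℝ) ^ (c / 2)) ^ k := by
        funext k
        rw [← Real.rpow_natCast, ← Real.rpow_mul (by positivity)]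
      rw [h2]
      exact tendsto_pow_atTop_atTop_of_one_lt (Real.one_lt_rpow (by exact_mod_cast (by omega : 1 < b)) (by linarith))
    obtain ⟨k₁, hk₁⟩ := eventually_atTop.mp (h1.eventually_ge_atTop M₀)
    exact ⟨k₁, hk₁⟩
  obtain ⟨k₁, hk₁⟩ := hlarge
  refine ⟨q, K₀ + k₁, C₀, M₀, hq, by linarith, hM00, fun n => ?_, fun k hk => ?_⟩
  · rcases Nat.lt_or_ge n (b ^ K₀) with hn | hn
    · exact (abs_le.1 (hsmall n hn)).1
    · linarith [hpos n hn]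
  have hkK : K₀ ≤ k := by omega
  obtain ⟨g1, g2⟩ := hgr k hkK
  have hf1 := hge1 k hkK
  refine ⟨hf1, g1, g2, fun n hn => ?_, fun D hD => ?_⟩
  · rcases Nat.lt_or_ge n (b ^ K₀) with hn' | hn'
    · exact ((le_abs_self _).trans (hsmall n hn')).trans ((hk₁ k (by omega)).trans g1)
    · exact (hmono k hkK n (by exact_mod_cast hn') (by exact_mod_cast hn.le)).2
  · have hcard := SD_card_pos b hb D k hD
    obtain ⟨Y, hY⟩ : ∃ Y, Y = ⌊φ 0 ((b : ℝ) ^ k)⌋₊ := ⟨_, rfl⟩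
    have hY1 : 1 ≤ Y := by rw [hY]; exact (Nat.one_le_floor_iff _).2 hf1
    have hYf : (Y : ℝ) ≤ φ 0 ((b : ℝ) ^ k) := by rw [hY]; exact Nat.floor_le (by linarith)
    rw [← hY]
    obtain ⟨Z, hZ⟩ : ∃ Z : ℝ, Z = ((SD b D k).card : ℝ) := ⟨_, rfl⟩
    refine ⟨fun _ _ => by positivity, ?_, ?_⟩
    · rw [sum_const, nsmul_eq_mul, mul_one_div_cancel hcard.ne']
    · have h2 := hmom K₀ φ _ hR (by
          simp only [if_pos le_rfl]
          refine hB₀.trans ?_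
          have : B₀ ≤ b ^ B₀ := (Nat.lt_pow_self (by omega)).le
          exact_mod_cast this) k hkK Y hY1 (by
          simp only [if_pos hkK]
          linarith) (wD D k) (dig_wD b hb D k hD)
      refine le_trans (le_of_eq ?_) h2
      apply sum_congr rfl
      intro t _
      congr 2
      rw [← hZ]
      have h4 : ∀ n ∈ range (b ^ k), ((P b (wD D k) 0 k n : ℝ) : ℂ) * ee ((t : ℝ) / ((12 * q * Y : ℕ) : ℝ) * φ 0 n) =
          if n ∈ SD b D k then ((1 / Z : ℝ) : ℂ) * ee ((t : ℝ) / ((12 * q * Y : ℕ) : ℝ) * φ 0 n) else 0 := by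
        intro n hn
        rw [P_wD b hb D k hD n hn, ← hZ]
        split_ifs
        · rfl
        · simp
      rw [sum_congr rfl h4, ← sum_filter]
      symm
      apply sum_congr _ fun _ _ => rfl
      ext n
      rw [mem_filter]
      refine ⟨fun h => h.2, fun h => ⟨?_, h⟩⟩
      unfold SD at h
      exact (mem_filter.1 h).1

end Pool.Agent.HP25.NI
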