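import Pool.Agent.HP25.PD.C

set_option autoImplicit false

/-! Integers with independent random digits: smooth functions whose derivatives of high order do not vanish. -/

namespace Pool.Agent.HP25.NI
open Finset
open Pool.Agent.H807R2.Dav
open Pool.Agent.TH872.Sq
open Pool.Agent.HP25.PD

lemma ee_lip (x y : ℝ) : ‖ee x - ee y‖ ≤ 7 * |x - y| := by
  have h1 : ee x - ee y = ee y * (ee (x - y) - 1) := by
    rw [mul_sub, mul_one, ← ee_add]; congr 2; ring
  have h2 : ee (x - y) = Complex.exp (Complex.I * ((2 * Real.pi * (x - y) : ℝ) : ℂ)) := by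
    unfold ee
    congr 1
    push_cast; ring
  rw [h1, norm_mul, norm_ee, one_mul, h2]
  refine (Real.norm_exp_I_mul_ofReal_sub_one_le).trans ?_
  rw [Real.norm_eq_abs, abs_mul, abs_of_pos (by positivity : 0 < 2 * Real.pi)]
  have h3 := Real.pi_lt_d2
  have h4 := abs_nonneg (x - y)
  nlinarith

/-- the formula of Taylor for a sequence of derivatives -/
lemma taylor (d : ℕ) : ∀ (φ : ℕ → ℝ → ℝ) (a h M : ℝ), 0 ≤ M →
    (∀ i ≤ d, ∀ t, a ≤ t → t ≤ a + h → HasDerivAt (φ i) (φ (i + 1) t) t) →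
    (∀ t, a ≤ t → t ≤ a + h → |φ (d + 1) t| ≤ M) →
    ∀ x, 0 ≤ x → x ≤ h → |φ 0 (a + x) - ∑ i ∈ range (d + 1), φ i a / (i.factorial : ℝ) * x ^ i| ≤ M * x ^ (d + 1) := by
  induction d with
  | zero =>
    intro φ a h M hM hder hbd x hx0 hxh
    have h1 := norm_image_sub_le_of_norm_deriv_le_segment' (f := φ 0) (f' := φ 1) (C := M) (a := a) (b := a + h)
      (fun t ht => (hder 0 le_rfl t ht.1 ht.2).hasDerivWithinAt) (fun t ht => hbd t ht.1 ht.2.le) (a + x)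
      ⟨by linarith, by linarith⟩
    simp only [zero_add, sum_range_one, Nat.factorial_zero, Nat.cast_one, div_one, pow_zero, mul_one, pow_one]
    rw [Real.norm_eq_abs] at h1
    have h2 : a + x - a = x := by ring
    rwa [h2] at h1
  | succ d ih =>
    intro φ a h M hM hder hbd x hx0 hxh
    have h1 := ih (fun i => φ (i + 1)) a h M hM (fun i hi t ht ht' => hder (i + 1) (by omega) t ht ht') hbd
    obtain ⟨g, hg⟩ : ∃ g : ℝ → ℝ, ∀ y, g y = φ 0 (a + y) - ∑ i ∈ range (d + 1 + 1), φ i a / (i.factorial : ℝ) * y ^ i := ⟨_, fun _ => rfl⟩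
    obtain ⟨g', hg'⟩ : ∃ g' : ℝ → ℝ, ∀ y, g' y = φ 1 (a + y) - ∑ i ∈ range (d + 1), φ (i + 1) a / (i.factorial : ℝ) * y ^ i := ⟨_, fun _ => rfl⟩
    have hgd : ∀ y, 0 ≤ y → y ≤ h → HasDerivAt g (g' y) y := by
      intro y hy0 hyh
      have e1 : g = fun y => φ 0 (a + y) - ∑ i ∈ range (d + 1 + 1), φ i a / (i.factorial : ℝ) * y ^ i := funext hg
      rw [e1, hg']
      have h2 : HasDerivAt (fun y => φ 0 (a + y)) (φ 1 (a + y)) y := by
        have h3 := hder 0 (by omega) (a + y) (by linarith) (by linarith)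
        exact HasDerivAt.comp_const_add a y h3
      have h4 : HasDerivAt (fun y => ∑ i ∈ range (d + 1 + 1), φ i a / (i.factorial : ℝ) * y ^ i)
          (∑ i ∈ range (d + 1 + 1), φ i a / (i.factorial : ℝ) * (i * y ^ (i - 1))) y := by
        apply HasDerivAt.fun_sum
        intro i _
        exact (hasDerivAt_pow i y).const_mul _
      have h5 : ∑ i ∈ range (d + 1 + 1), φ i a / (i.factorial : ℝ) * (i * y ^ (i - 1)) =
          ∑ i ∈ range (d + 1), φ (i + 1) a / (i.factorial : ℝ) * y ^ i := by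
        rw [sum_range_succ' _ (d + 1)]
        simp only [Nat.cast_zero, zero_mul, mul_zero, add_zero]
        apply sum_congr rfl
        intro i _
        rw [Nat.factorial_succ, Nat.add_sub_cancel]
        have : (i.factorial : ℝ) ≠ 0 := by exact_mod_cast (Nat.factorial_pos i).ne'
        push_cast
        field_simp
      rw [h5] at h4
      exact h2.sub h4
    have h0 : g 0 = 0 := by
      rw [hg, sum_range_succ' _ (d + 1)]
      simp
    have h6 := norm_image_sub_le_of_norm_deriv_le_segment' (f := g) (f' := g') (C := M * x ^ (d + 1)) (a := 0) (b := x)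
      (fun t ht => (hgd t ht.1 (ht.2.trans hxh)).hasDerivWithinAt) (fun t ht => by
        rw [Real.norm_eq_abs, hg']
        refine (h1 t ht.1 (ht.2.le.trans hxh)).trans ?_
        apply mul_le_mul_of_nonneg_left _ hM
        exact pow_le_pow_left₀ ht.1 ht.2.le _) x ⟨hx0, le_rfl⟩
    rw [h0, sub_zero, sub_zero, Real.norm_eq_abs, hg] at h6
    refine h6.trans (le_of_eq ?_)
    ring

/-- on the blocks `[b ^ K, b ^ (K + 1)]` the derivatives of the orders `e + 2` and `e + 3` have the expected size;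
`G K` is the size of the function at `b ^ K` -/
structure Reg (b e c' K₀ : ℕ) (c₁ c₂ : ℝ) (φ : ℕ → ℝ → ℝ) (G : ℕ → ℝ) : Prop where
  der : ∀ i ≤ e + 2, ∀ t : ℝ, (b : ℝ) ^ K₀ ≤ t → HasDerivAt (φ i) (φ (i + 1) t) t
  low : ∀ K, K₀ ≤ K → ∀ t : ℝ, (b : ℝ) ^ K ≤ t → t ≤ (b : ℝ) ^ (K + 1) → c₁ * G (K + 1) ≤ |φ (e + 2) t| * (b : ℝ) ^ ((e + 2) * (K + 1))
  up : ∀ K, K₀ ≤ K → ∀ t : ℝ, (b : ℝ) ^ K ≤ t → t ≤ (b : ℝ) ^ (K + 1) → |φ (e + 2) t| * (b : ℝ) ^ ((e + 2) * (K + 1)) ≤ c₂ * G (K + 1)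
  up' : ∀ K, K₀ ≤ K → ∀ t : ℝ, (b : ℝ) ^ K ≤ t → t ≤ (b : ℝ) ^ (K + 1) → |φ (e + 3) t| * (b : ℝ) ^ ((e + 3) * (K + 1)) ≤ c₂ * G (K + 1)
  pos : ∀ K, 0 < G K
  size : ∀ K, K₀ ≤ K → G (K + 1) ≤ (b : ℝ) ^ ((e + 1) * (K + 1))
  step : ∀ K, K₀ ≤ K → G (K + 1) ≤ (b : ℝ) ^ c' * G K

end Pool.Agent.HP25.NI
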