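import Pool.Agent.HP25.NI.A

set_option autoImplicit false

/-! Integers with independent random digits, smooth functions: the numbers with a fixed number of digits. -/

namespace Pool.Agent.HP25.NI
open Finset
open Pool.Agent.H807R2.Dav
open Pool.Agent.TH872.Sq
open Pool.Agent.HP25.PD

/-- the inner sum: the low digits -/
lemma inner (b : ℕ) (hb : 2 ≤ b) (η : ℝ) (hη : 0 < η) (hη1 : η ≤ 1) (e : ℕ) (c₁ c₂ : ℝ) (hc₁ : 0 < c₁) (hc₂ : 0 < c₂) :
    ∃ (D L₀ : ℕ) (A' ρ : ℝ), 1 ≤ D ∧ 1 ≤ L₀ ∧ 1 ≤ A' ∧ 1 / 2 ≤ ρ ∧ ρ < 1 ∧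
    ∀ (c' K₀ : ℕ) (φ : ℕ → ℝ → ℝ) (G : ℕ → ℝ), Reg b e c' K₀ c₁ c₂ φ G → ∀ K, K₀ ≤ K → ∀ θ : ℝ, |θ| ≤ 1 →
    ∀ u L' : ℕ, (b : ℝ) ^ u ≤ |θ| * G (K + 1) → |θ| * G (K + 1) ≤ (b : ℝ) ^ (u + 1) → L₀ ≤ L' → D * L' ≤ u →
    ∀ w : ℕ → ℕ → ℝ, Dig b η w →
    ‖∑ n ∈ range (b ^ (K + 1)), ((P b w 0 (K + 1) n : ℝ) : ℂ) * (if b ^ K ≤ n then ee (θ * φ 0 n) else 0)‖ ≤ A' * ρ ^ L' := by
  obtain ⟨s, C, A, τ, hs, hC, hA, hτ0, hτ1, hweyl⟩ := weyl_all b hb η hη hη1 e
  have hb0 : 0 < b := by omega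
  have hb2 : (2 : ℝ) ≤ b := by exact_mod_cast hb
  have hbr : (0 : ℝ) < b := by linarith
  have hb1 : (1 : ℝ) ≤ b := by linarith
  have hA1 : (1 : ℝ) ≤ A := by exact_mod_cast hA
  obtain ⟨d, hd⟩ : ∃ d, d = e + 2 := ⟨_, rfl⟩
  have hf : (0 : ℝ) < d.factorial := by exact_mod_cast d.factorial_pos
  obtain ⟨D₁, hD₁⟩ : ∃ D₁, D₁ = (C + 1) + d * (C + 4) + d * d * (4 * C + 4) := ⟨_, rfl⟩
  obtain ⟨L₀, hL₀⟩ := exists_nat_ge (A * d.factorial / c₁ + A * (c₂ + A) + c₂ * (b : ℝ) ^ (d + 1) + 1)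
  refine ⟨s * D₁, L₀ + 2, A + 7, max τ (1 / 2), by rw [hD₁]; exact Nat.mul_pos (by omega) (by omega), by omega, by linarith,
    le_max_right _ _, max_lt hτ1 (by norm_num), ?_⟩
  intro c' K₀ φ G hR K hK θ hθ u L' hu1 hu2 hL' hDu w hw
  obtain ⟨N, hN⟩ : ∃ N, N = K + 1 := ⟨_, rfl⟩
  obtain ⟨L, hL⟩ : ∃ L, L = s * L' := ⟨_, rfl⟩
  obtain ⟨Θ, hΘ⟩ : ∃ Θ, Θ = |θ| * G (K + 1) := ⟨_, rfl⟩
  rw [← hΘ] at hu1 hu2
  have hLL' : L' ≤ L := by rw [hL]; exact Nat.le_mul_of_pos_left _ (by omega)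
  have hDL : D₁ * L ≤ u := by
    rw [hL]
    calc D₁ * (s * L') = s * D₁ * L' := by ring
      _ ≤ u := hDu
  have hL1 : 1 ≤ L := by omega
  -- large powers
  have hbL : A * d.factorial / c₁ + A * (c₂ + A) + c₂ * (b : ℝ) ^ (d + 1) + 1 ≤ (b : ℝ) ^ L := by
    refine hL₀.trans ?_
    calc (L₀ : ℝ) ≤ L := by exact_mod_cast (by omega : L₀ ≤ L)
      _ ≤ (b : ℝ) ^ L := by exact_mod_cast (Nat.lt_pow_self (by omega : 1 < b)).le
  have hp1 : 0 < A * d.factorial / c₁ := by positivity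
  have hp2 : 0 < A * (c₂ + A) := by positivity
  have hp3 : 0 < c₂ * (b : ℝ) ^ (d + 1) := by positivity
  -- the number of the high digits
  obtain ⟨j, hj⟩ : ∃ j, j = (u - (C + 1) * L) / d := ⟨_, rfl⟩
  have hd0 : 0 < d := by omega
  have hCL : (C + 1) * L + d * ((C + 4) * L) + d * (d * ((4 * C + 4) * L)) ≤ u := by
    refine le_trans (le_of_eq ?_) hDL
    rw [hD₁]
    ring
  have hj1 : d * j ≤ u - (C + 1) * L := by rw [hj]; exact Nat.mul_div_le _ _
  have hj2 : u - (C + 1) * L < d * j + d := by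
    rw [hj]
    have := Nat.lt_mul_div_succ (u - (C + 1) * L) hd0
    rw [mul_add, mul_one] at this
    exact this
  have hj3 : (C + 4) * L ≤ j := by
    rw [hj, Nat.le_div_iff_mul_le hd0, mul_comm]
    omega
  have hj4 : 1 ≤ j := by nlinarith
  have hθG : Θ ≤ (b : ℝ) ^ ((e + 1) * N) := by
    rw [hΘ, hN]
    calc |θ| * G (K + 1) ≤ 1 * G (K + 1) := mul_le_mul_of_nonneg_right hθ (hR.pos _).le
      _ ≤ _ := by rw [one_mul]; exact hR.size K hK
  have hu3 : u ≤ (e + 1) * N := by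
    have h1 : (b : ℝ) ^ u ≤ (b : ℝ) ^ ((e + 1) * N) := hu1.trans hθG
    exact (pow_le_pow_iff_right₀ (by linarith : (1 : ℝ) < b)).1 h1
  have hdd : d * N = (e + 1) * N + N := by rw [hd]; ring
  have hdN : d * (d * ((4 * C + 4) * L)) ≤ d * N := by omega
  have hN1 : d * ((4 * C + 4) * L) ≤ N := Nat.le_of_mul_le_mul_left hdN hd0
  have hjN : j < N := by
    have h1 : d * j < d * N := by
      have : 0 < N := by omega
      omega
    exact Nat.lt_of_mul_lt_mul_left h1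
  obtain ⟨m, hm⟩ : ∃ m, m = N - j := ⟨_, rfl⟩
  have hmj : m + j = N := by omega
  have hdm : N ≤ d * m := by
    have : d * m + d * j = d * N := by rw [← mul_add, hmj]
    omega
  have hm1 : (4 * C + 4) * L ≤ m := by
    have h1 : d * ((4 * C + 4) * L) ≤ d * m := hN1.trans hdm
    exact Nat.le_of_mul_le_mul_left h1 hd0
  have hN2 : (4 * C + 4) * L ≤ N := by
    refine le_trans ?_ hN1
    exact Nat.le_mul_of_pos_left _ hd0
  have hCm : C * L ≤ m := by
    refine le_trans ?_ hm1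
    exact Nat.mul_le_mul_right _ (by omega)
  -- the bound for fixed high digits
  have key : ∀ v : ℕ, b ^ (j - 1) ≤ v → v < b ^ j →
      ‖∑ x ∈ range (b ^ m), ((P b w 0 m x : ℝ) : ℂ) * ee (θ * φ 0 ((x + b ^ m * v : ℕ) : ℝ))‖ ≤ (A + 7) * (max τ (1 / 2)) ^ L' := by
    intro v hv1 hv2
    obtain ⟨n₀, hn₀⟩ : ∃ n₀ : ℝ, n₀ = (b : ℝ) ^ m * v := ⟨_, rfl⟩
    have hn1 : (b : ℝ) ^ K ≤ n₀ := by
      rw [hn₀]
      have h1 : b ^ K ≤ b ^ m * v := by
        calc b ^ K = b ^ m * b ^ (j - 1) := by rw [← pow_add]; congr 1; omega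
          _ ≤ _ := Nat.mul_le_mul_left _ hv1
      exact_mod_cast h1
    have hn2 : n₀ + (b : ℝ) ^ m ≤ (b : ℝ) ^ (K + 1) := by
      rw [hn₀]
      have h1 : b ^ m * v + b ^ m ≤ b ^ (K + 1) := by
        calc b ^ m * v + b ^ m = b ^ m * (v + 1) := by ring
          _ ≤ b ^ m * b ^ j := Nat.mul_le_mul_left _ hv2
          _ = b ^ (K + 1) := by rw [← pow_add, hmj, hN]
      exact_mod_cast h1
    have hKK : (b : ℝ) ^ K₀ ≤ (b : ℝ) ^ K := pow_le_pow_right₀ hb1 hK
    obtain ⟨M, hM⟩ : ∃ M, M = c₂ * G (K + 1) / (b : ℝ) ^ ((e + 3) * (K + 1)) := ⟨_, rfl⟩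
    have hM0 : 0 ≤ M := by
      rw [hM]
      have := (hR.pos (K + 1)).le
      positivity
    obtain ⟨p, hp⟩ : ∃ p : ℝ → ℝ, ∀ x, p x = ∑ i ∈ range (e + 3), φ i n₀ / (i.factorial : ℝ) * x ^ i := ⟨_, fun _ => rfl⟩
    have htay : ∀ x : ℕ, x < b ^ m → |φ 0 ((x + b ^ m * v : ℕ) : ℝ) - p x| ≤ M * ((b : ℝ) ^ m) ^ (e + 3) := by
      intro x hx
      have hxr : (x : ℝ) ≤ (b : ℝ) ^ m := by exact_mod_cast hx.le
      have h1 := taylor (e + 2) φ n₀ ((b : ℝ) ^ m) M hM0 (fun i hi t ht _ => hR.der i hi t (hKK.trans (hn1.trans ht)))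
        (fun t ht ht' => by
          rw [hM, le_div_iff₀ (by positivity)]
          exact hR.up' K hK t (hn1.trans ht) (ht'.trans hn2)) x (Nat.cast_nonneg _) hxr
      have h2 : ((x + b ^ m * v : ℕ) : ℝ) = n₀ + x := by rw [hn₀]; push_cast; ring
      rw [h2, hp]
      refine h1.trans ?_
      apply mul_le_mul_of_nonneg_left _ hM0
      exact pow_le_pow_left₀ (Nat.cast_nonneg _) hxr _
    -- the error of the approximation
    have herr : |θ| * (M * ((b : ℝ) ^ m) ^ (e + 3)) ≤ 1 / (b : ℝ) ^ L := by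
      have h1 : |θ| * (M * ((b : ℝ) ^ m) ^ (e + 3)) = c₂ * Θ / (b : ℝ) ^ ((e + 3) * j) := by
        rw [hM, hΘ, ← hN, ← hmj, mul_add, pow_add, ← pow_mul, mul_comm m (e + 3)]
        field_simp
      rw [h1, div_le_div_iff₀ (by positivity) (by positivity), one_mul]
      have h2 : u + 1 + 2 * L ≤ (e + 3) * j + (d + 1) := by
        have h3 : (e + 3) * j = d * j + j := by rw [hd]; ring
        have h4 : (C + 4) * L = (C + 1) * L + 3 * L := by ring
        omega
      have h3 : (b : ℝ) ^ (u + 1) * (b : ℝ) ^ (2 * L) ≤ (b : ℝ) ^ ((e + 3) * j) * (b : ℝ) ^ (d + 1) := by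
        rw [← pow_add, ← pow_add]
        exact pow_le_pow_right₀ hb1 h2
      have h4 : c₂ * (b : ℝ) ^ (d + 1) ≤ (b : ℝ) ^ L := by linarith
      have h5 : c₂ * Θ * (b : ℝ) ^ L * (b : ℝ) ^ L ≤ (b : ℝ) ^ ((e + 3) * j) * (b : ℝ) ^ L := by
        calc c₂ * Θ * (b : ℝ) ^ L * (b : ℝ) ^ L ≤ c₂ * (b : ℝ) ^ (u + 1) * (b : ℝ) ^ L * (b : ℝ) ^ L := by
              apply mul_le_mul_of_nonneg_right _ (by positivity)
              apply mul_le_mul_of_nonneg_right _ (by positivity)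
              exact mul_le_mul_of_nonneg_left hu2 hc₂.le
          _ = c₂ * ((b : ℝ) ^ (u + 1) * (b : ℝ) ^ (2 * L)) := by rw [two_mul L, pow_add _ L L]; ring
          _ ≤ c₂ * ((b : ℝ) ^ ((e + 3) * j) * (b : ℝ) ^ (d + 1)) := mul_le_mul_of_nonneg_left h3 hc₂.le
          _ = (b : ℝ) ^ ((e + 3) * j) * (c₂ * (b : ℝ) ^ (d + 1)) := by ring
          _ ≤ _ := mul_le_mul_of_nonneg_left h4 (by positivity)
      exact le_of_mul_le_mul_right h5 (by positivity)
    -- the polynomial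
    obtain ⟨β, hβ⟩ : ∃ β, β = θ * (φ (e + 2) n₀ / ((e + 2).factorial : ℝ)) := ⟨_, rfl⟩
    have hPl : Pl e β (fun x => θ * p x) := by
      rw [hβ]
      apply pl_smul
      exact pl_sum e (fun i => φ i n₀ / (i.factorial : ℝ)) p hp
    have hmain : ‖∑ x ∈ range (b ^ m), ((P b w 0 m x : ℝ) : ℂ) * ee (θ * p x)‖ ≤ A * τ ^ L' := by
      rcases hweyl m L (by omega) hCm w hw 0 β _ hPl with h | ⟨Q, a, hQ1, hQ2, hQ3⟩
      · have h1 : ‖∑ x ∈ range (b ^ m), ((P b w 0 m x : ℝ) : ℂ) * ee (θ * p x)‖ ^ s ≤ (A * τ ^ L') ^ s := by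
          refine h.trans ?_
          rw [mul_pow, hL, mul_comm s, pow_mul]
          apply mul_le_mul_of_nonneg_right _ (by positivity)
          exact le_self_pow₀ hA1 (by omega)
        exact (pow_le_pow_iff_left₀ (norm_nonneg _) (by positivity) (by omega)).1 h1
      · exfalso
        have hd' : e + 2 = d := hd.symm
        rw [hd'] at hβ hQ3
        have hlow := hR.low K hK n₀ hn1 (by linarith [pow_nonneg hbr.le m])
        have hup := hR.up K hK n₀ hn1 (by linarith [pow_nonneg hbr.le m])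
        rw [hd', ← hN] at hlow hup
        rw [← hN] at hΘ
        have habs : |β| = |θ| * |φ d n₀| / d.factorial := by
          rw [hβ, abs_mul, abs_div, abs_of_pos hf]
          ring
        -- lower bound
        have hl1 : c₁ / d.factorial * (b : ℝ) ^ ((C + 1) * L) ≤ |β| * (b : ℝ) ^ (d * m) := by
          have h1 : c₁ * Θ ≤ |θ| * |φ d n₀| * (b : ℝ) ^ (d * N) := by
            calc c₁ * Θ = |θ| * (c₁ * G N) := by rw [hΘ]; ring
              _ ≤ |θ| * (|φ d n₀| * (b : ℝ) ^ (d * N)) := mul_le_mul_of_nonneg_left hlow (abs_nonneg _)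
              _ = _ := by ring
          have h2 : c₁ * ((b : ℝ) ^ ((C + 1) * L) * (b : ℝ) ^ (d * j)) ≤ |θ| * |φ d n₀| * (b : ℝ) ^ (d * m) * (b : ℝ) ^ (d * j) := by
            calc c₁ * ((b : ℝ) ^ ((C + 1) * L) * (b : ℝ) ^ (d * j)) ≤ c₁ * (b : ℝ) ^ u := by
                  rw [← pow_add]
                  apply mul_le_mul_of_nonneg_left _ hc₁.le
                  exact pow_le_pow_right₀ hb1 (by omega)
              _ ≤ c₁ * Θ := mul_le_mul_of_nonneg_left hu1 hc₁.le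
              _ ≤ _ := h1
              _ = _ := by rw [← hmj, mul_add, pow_add]; ring
          have h3 : c₁ * (b : ℝ) ^ ((C + 1) * L) ≤ |θ| * |φ d n₀| * (b : ℝ) ^ (d * m) := by
            have h4 : c₁ * (b : ℝ) ^ ((C + 1) * L) * (b : ℝ) ^ (d * j) ≤ |θ| * |φ d n₀| * (b : ℝ) ^ (d * m) * (b : ℝ) ^ (d * j) := by
              rw [mul_assoc]; exact h2
            exact le_of_mul_le_mul_right h4 (by positivity)
          rw [habs, div_mul_eq_mul_div, div_mul_eq_mul_div]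
          exact div_le_div_of_nonneg_right h3 hf.le
        -- upper bound
        have hl2 : |β| * (b : ℝ) ^ N ≤ c₂ := by
          have h1 : |θ| * |φ d n₀| * (b : ℝ) ^ (d * N) ≤ c₂ * (b : ℝ) ^ ((e + 1) * N) := by
            calc |θ| * |φ d n₀| * (b : ℝ) ^ (d * N) = |θ| * (|φ d n₀| * (b : ℝ) ^ (d * N)) := by ring
              _ ≤ |θ| * (c₂ * G N) := mul_le_mul_of_nonneg_left hup (abs_nonneg _)
              _ = c₂ * Θ := by rw [hΘ]; ring
              _ ≤ _ := mul_le_mul_of_nonneg_left hθG hc₂.le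
          rw [hdd, pow_add] at h1
          have h2 : |θ| * |φ d n₀| * (b : ℝ) ^ N ≤ c₂ := by
            have h3 : |θ| * |φ d n₀| * (b : ℝ) ^ N * (b : ℝ) ^ ((e + 1) * N) ≤ c₂ * (b : ℝ) ^ ((e + 1) * N) := by
              refine le_trans (le_of_eq ?_) h1
              ring
            exact le_of_mul_le_mul_right h3 (by positivity)
          rw [habs]
          have hf1 : (1 : ℝ) ≤ d.factorial := by exact_mod_cast d.factorial_pos
          calc |θ| * |φ d n₀| / d.factorial * (b : ℝ) ^ N ≤ |θ| * |φ d n₀| * (b : ℝ) ^ N := by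
                apply mul_le_mul_of_nonneg_right _ (by positivity)
                exact div_le_self (by positivity) hf1
            _ ≤ c₂ := h2
        have hQr : (1 : ℝ) ≤ Q := by exact_mod_cast hQ1
        have hQr2 : (Q : ℝ) ≤ A * (b : ℝ) ^ (C * L) := by exact_mod_cast hQ2
        have hbCL : (b : ℝ) ^ ((C + 1) * L) = (b : ℝ) ^ (C * L) * (b : ℝ) ^ L := by rw [← pow_add]; congr 1; ring
        have hCLp : (0 : ℝ) < (b : ℝ) ^ (C * L) := by positivity
        by_cases ha : a = 0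
        · rw [ha] at hQ3
          simp only [Int.cast_zero, zero_div, sub_zero] at hQ3
          have h1 := hl1.trans hQ3
          rw [hbCL, ← mul_assoc, mul_right_comm] at h1
          have h2 := le_of_mul_le_mul_right h1 hCLp
          have h3 : (b : ℝ) ^ L ≤ A * d.factorial / c₁ := by
            rw [le_div_iff₀ hc₁]
            have h4 : c₁ / d.factorial * (b : ℝ) ^ L * d.factorial ≤ A * d.factorial := mul_le_mul_of_nonneg_right h2 hf.le
            have h5 : c₁ / d.factorial * (b : ℝ) ^ L * d.factorial = (b : ℝ) ^ L * c₁ := by field_simp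
            rwa [h5] at h4
          linarith
        · have ha1 : (1 : ℝ) ≤ |(a : ℝ)| := by
            rw [← Int.cast_abs]
            exact_mod_cast Int.one_le_abs ha
          have h1 : 1 / (Q : ℝ) ≤ |β| + |β - a / Q| := by
            have h2 : |(a : ℝ) / Q| ≤ |β| + |β - a / Q| := by
              have h3 : (a : ℝ) / Q = β - (β - a / Q) := by ring
              nth_rewrite 1 [h3]
              exact abs_sub _ _
            refine le_trans ?_ h2
            rw [abs_div, abs_of_pos (by linarith : (0 : ℝ) < Q)]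
            exact div_le_div_of_nonneg_right ha1 (by linarith)
          have h4 : |β - a / Q| * (b : ℝ) ^ N ≤ A * (b : ℝ) ^ (C * L) := by
            refine le_trans ?_ hQ3
            exact mul_le_mul_of_nonneg_left (pow_le_pow_right₀ hb1 hdm) (abs_nonneg _)
          have h5 : (b : ℝ) ^ N ≤ Q * (c₂ + A * (b : ℝ) ^ (C * L)) := by
            have h6 : 1 / (Q : ℝ) * (b : ℝ) ^ N ≤ c₂ + A * (b : ℝ) ^ (C * L) := by
              calc 1 / (Q : ℝ) * (b : ℝ) ^ N ≤ (|β| + |β - a / Q|) * (b : ℝ) ^ N := mul_le_mul_of_nonneg_right h1 (by positivity)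
                _ = |β| * (b : ℝ) ^ N + |β - a / Q| * (b : ℝ) ^ N := by ring
                _ ≤ _ := add_le_add hl2 h4
            have hQ0 : (0 : ℝ) < Q := by linarith
            rw [one_div, inv_mul_eq_div, div_le_iff₀ hQ0] at h6
            linarith
          have h6 : (b : ℝ) ^ N ≤ A * (c₂ + A) * ((b : ℝ) ^ (C * L) * (b : ℝ) ^ (C * L)) := by
            refine h5.trans ?_
            have h7 : (1 : ℝ) ≤ (b : ℝ) ^ (C * L) := one_le_pow₀ hb1
            have h8 : c₂ + A * (b : ℝ) ^ (C * L) ≤ (c₂ + A) * (b : ℝ) ^ (C * L) := by nlinarith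
            calc (Q : ℝ) * (c₂ + A * (b : ℝ) ^ (C * L)) ≤ (A * (b : ℝ) ^ (C * L)) * ((c₂ + A) * (b : ℝ) ^ (C * L)) :=
                  mul_le_mul hQr2 h8 (by positivity) (by positivity)
              _ = _ := by ring
          have h7 : (b : ℝ) ^ (C * L) * (b : ℝ) ^ (C * L) * (b : ℝ) ^ L ≤ (b : ℝ) ^ N := by
            rw [← pow_add, ← pow_add]
            apply pow_le_pow_right₀ hb1
            refine le_trans ?_ hN2
            have : (4 * C + 4) * L = C * L + C * L + L + (2 * C + 3) * L := by ring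
            omega
          have h8 : (b : ℝ) ^ L ≤ A * (c₂ + A) := by
            have h9 : (b : ℝ) ^ L * ((b : ℝ) ^ (C * L) * (b : ℝ) ^ (C * L)) ≤ A * (c₂ + A) * ((b : ℝ) ^ (C * L) * (b : ℝ) ^ (C * L)) := by
              refine le_trans ?_ (h7.trans h6)
              rw [mul_comm]
            exact le_of_mul_le_mul_right h9 (by positivity)
          linarith
    have hdiff : ‖∑ x ∈ range (b ^ m), ((P b w 0 m x : ℝ) : ℂ) * ee (θ * φ 0 ((x + b ^ m * v : ℕ) : ℝ)) -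
        ∑ x ∈ range (b ^ m), ((P b w 0 m x : ℝ) : ℂ) * ee (θ * p x)‖ ≤ 7 * (1 / (b : ℝ) ^ L) := by
      rw [← sum_sub_distrib]
      refine (norm_sum_le _ _).trans ?_
      calc ∑ x ∈ range (b ^ m), ‖((P b w 0 m x : ℝ) : ℂ) * ee (θ * φ 0 ((x + b ^ m * v : ℕ) : ℝ)) - ((P b w 0 m x : ℝ) : ℂ) * ee (θ * p x)‖ ≤
          ∑ x ∈ range (b ^ m), P b w 0 m x * (7 * (1 / (b : ℝ) ^ L)) := by
            apply sum_le_sum
            intro x hx
            rw [← mul_sub, norm_mul, Complex.norm_real, Real.norm_of_nonneg (P_nonneg hw 0 m x)]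
            apply mul_le_mul_of_nonneg_left _ (P_nonneg hw 0 m x)
            refine (ee_lip _ _).trans ?_
            apply mul_le_mul_of_nonneg_left _ (by norm_num)
            rw [← mul_sub, abs_mul]
            exact (mul_le_mul_of_nonneg_left (htay x (mem_range.1 hx)) (abs_nonneg _)).trans herr
        _ = _ := by rw [← sum_mul, P_sum hb0 hw 0 m, one_mul]
    have hρ1 : τ ^ L' ≤ (max τ (1 / 2)) ^ L' := pow_le_pow_left₀ hτ0 (le_max_left _ _) _
    have hρ2 : 1 / (b : ℝ) ^ L ≤ (max τ (1 / 2)) ^ L' := by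
      calc 1 / (b : ℝ) ^ L ≤ 1 / (b : ℝ) ^ L' := one_div_le_one_div_of_le (by positivity) (pow_le_pow_right₀ hb1 hLL')
        _ = (1 / (b : ℝ)) ^ L' := by rw [one_div_pow]
        _ ≤ (1 / 2) ^ L' := pow_le_pow_left₀ (by positivity) (one_div_le_one_div_of_le (by norm_num) hb2) _
        _ ≤ _ := pow_le_pow_left₀ (by norm_num) (le_max_right _ _) _
    have h9 := norm_sub_norm_le (∑ x ∈ range (b ^ m), ((P b w 0 m x : ℝ) : ℂ) * ee (θ * φ 0 ((x + b ^ m * v : ℕ) : ℝ)))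
      (∑ x ∈ range (b ^ m), ((P b w 0 m x : ℝ) : ℂ) * ee (θ * p x))
    have h10 : (A : ℝ) * τ ^ L' ≤ A * (max τ (1 / 2)) ^ L' := mul_le_mul_of_nonneg_left hρ1 (by linarith)
    calc _ ≤ 7 * (1 / (b : ℝ) ^ L) + A * τ ^ L' := by linarith
      _ ≤ 7 * (max τ (1 / 2)) ^ L' + A * (max τ (1 / 2)) ^ L' := by linarith
      _ = _ := by ring
  -- the sum over the high digits
  have hZ0 : 0 ≤ (A + 7) * (max τ (1 / 2)) ^ L' := by
    have : (0 : ℝ) ≤ max τ (1 / 2) := le_max_of_le_left hτ0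
    positivity
  have hsplit := ex_split b hb0 w 0 m j (fun n => if b ^ K ≤ n then ee (θ * φ 0 (n : ℝ)) else 0)
  rw [hmj, hN] at hsplit
  rw [hsplit]
  have hsw : ∑ x ∈ range (b ^ m), ((P b w 0 m x : ℝ) : ℂ) * ∑ v ∈ range (b ^ j), ((P b w (0 + m) j v : ℝ) : ℂ) *
      (if b ^ K ≤ x + b ^ m * v then ee (θ * φ 0 ((x + b ^ m * v : ℕ) : ℝ)) else 0) =
      ∑ v ∈ range (b ^ j), ((P b w (0 + m) j v : ℝ) : ℂ) * (if b ^ (j - 1) ≤ v then
        ∑ x ∈ range (b ^ m), ((P b w 0 m x : ℝ) : ℂ) * ee (θ * φ 0 ((x + b ^ m * v : ℕ) : ℝ)) else 0) := by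
    simp only [mul_sum]
    rw [sum_comm]
    apply sum_congr rfl
    intro v hv
    have hK' : b ^ K = b ^ m * b ^ (j - 1) := by rw [← pow_add]; congr 1; omega
    split_ifs with hvj
    · rw [mul_sum]
      apply sum_congr rfl
      intro x _
      have h1 : b ^ K ≤ x + b ^ m * v := by
        rw [hK']
        exact (Nat.mul_le_mul_left _ hvj).trans (Nat.le_add_left _ _)
      rw [if_pos h1]
      ring
    · rw [mul_zero]
      apply sum_eq_zero
      intro x hx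
      have h1 : ¬ b ^ K ≤ x + b ^ m * v := by
        rw [hK', not_le]
        have h2 : v + 1 ≤ b ^ (j - 1) := by omega
        calc x + b ^ m * v < b ^ m + b ^ m * v := by
              have := mem_range.1 hx
              omega
          _ = b ^ m * (v + 1) := by ring
          _ ≤ _ := Nat.mul_le_mul_left _ h2
      rw [if_neg h1, mul_zero, mul_zero]
  rw [hsw]
  refine (norm_sum_le _ _).trans ?_
  calc ∑ v ∈ range (b ^ j), ‖((P b w (0 + m) j v : ℝ) : ℂ) * (if b ^ (j - 1) ≤ v then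
        ∑ x ∈ range (b ^ m), ((P b w 0 m x : ℝ) : ℂ) * ee (θ * φ 0 ((x + b ^ m * v : ℕ) : ℝ)) else 0)‖ ≤
      ∑ v ∈ range (b ^ j), P b w (0 + m) j v * ((A + 7) * (max τ (1 / 2)) ^ L') := by
        apply sum_le_sum
        intro v hv
        rw [norm_mul, Complex.norm_real, Real.norm_of_nonneg (P_nonneg hw _ j v)]
        apply mul_le_mul_of_nonneg_left _ (P_nonneg hw _ j v)
        split_ifs with hvj
        · exact key v hvj (mem_range.1 hv)
        · rw [norm_zero]; exact hZ0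
    _ = _ := by rw [← sum_mul, P_sum hb0 hw _ j, one_mul]

end Pool.Agent.HP25.NI
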