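import Pool.Agent.HP25.NI.B

set_option autoImplicit false

/-! Integers with independent random digits, smooth functions: the decay of the characteristic function, moments. -/

namespace Pool.Agent.HP25.NI
open Finset
open Pool.Agent.H807R2.Dav
open Pool.Agent.TH872.Sq
open Pool.Agent.HP25.PD

/-- the exponent of the size of `x` -/
noncomputable def lg (b : ℕ) (x : ℝ) : ℕ := Nat.log b ⌊x⌋₊

lemma lt_lg (b : ℕ) (hb : 2 ≤ b) (x : ℝ) : x < (b : ℝ) ^ (lg b x + 1) := by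
  have h1 := Nat.lt_pow_succ_log_self (by omega : 1 < b) ⌊x⌋₊
  have h2 := Nat.lt_of_floor_lt h1
  unfold lg
  exact_mod_cast h2

lemma lg_le (b : ℕ) (x : ℝ) (hx : 1 ≤ x) : (b : ℝ) ^ lg b x ≤ x := by
  have h0 : ⌊x⌋₊ ≠ 0 := by
    have := (Nat.one_le_floor_iff x).2 hx
    omega
  have h1 : b ^ lg b x ≤ ⌊x⌋₊ := Nat.pow_log_le_self b h0
  have h2 : (⌊x⌋₊ : ℝ) ≤ x := Nat.floor_le (by linarith)
  calc (b : ℝ) ^ lg b x = ((b ^ lg b x : ℕ) : ℝ) := by push_cast; rfl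
    _ ≤ (⌊x⌋₊ : ℝ) := by exact_mod_cast h1
    _ ≤ x := h2

lemma lg_zero (b : ℕ) (x : ℝ) (hx : x < 1) : lg b x = 0 := by
  unfold lg
  rw [Nat.floor_eq_zero.2 hx, Nat.log_zero_right]

lemma lg_step (b : ℕ) (hb : 2 ≤ b) (x y : ℝ) (c' : ℕ) (h : y ≤ (b : ℝ) ^ c' * x) : lg b y ≤ lg b x + c' := by
  rcases lt_or_ge y 1 with hy | hy
  · rw [lg_zero b y hy]; omega
  · have h1 := lg_le b y hy
    have h2 := lt_lg b hb x
    have hb1 : (1 : ℝ) < b := by exact_mod_cast (by omega : 1 < b)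
    have h3 : (b : ℝ) ^ lg b y < (b : ℝ) ^ (lg b x + 1 + c') := by
      calc (b : ℝ) ^ lg b y ≤ (b : ℝ) ^ c' * x := h1.trans h
        _ < (b : ℝ) ^ c' * (b : ℝ) ^ (lg b x + 1) := mul_lt_mul_of_pos_left h2 (by positivity)
        _ = _ := by rw [← pow_add]; congr 1; ring
    have h4 := (pow_lt_pow_iff_right₀ hb1).1 h3
    omega

lemma lg_mono (b : ℕ) (x y : ℝ) (h : x ≤ y) : lg b x ≤ lg b y := by
  unfold lg
  exact Nat.log_mono_right (Nat.floor_le_floor h)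

lemma lg_pow (b : ℕ) (hb : 2 ≤ b) (B : ℕ) : lg b ((b : ℝ) ^ B) = B := by
  unfold lg
  have : ((b : ℝ) ^ B) = ((b ^ B : ℕ) : ℝ) := by push_cast; rfl
  rw [this, Nat.floor_natCast, Nat.log_pow (by omega)]

/-- **Decay** of the characteristic function. -/
theorem decay (b : ℕ) (hb : 2 ≤ b) (η : ℝ) (hη : 0 < η) (hη1 : η ≤ 1) (e c' : ℕ) (c₁ c₂ : ℝ) (hc₁ : 0 < c₁) (hc₂ : 0 < c₂) :
    ∃ (D : ℕ) (ρ : ℝ), 1 ≤ D ∧ 1 / 2 ≤ ρ ∧ ρ < 1 ∧ ∀ B₀ : ℕ, ∃ C₆ : ℝ, 1 ≤ C₆ ∧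
    ∀ (K₀ : ℕ) (φ : ℕ → ℝ → ℝ) (G : ℕ → ℝ), Reg b e c' K₀ c₁ c₂ φ G → G K₀ ≤ (b : ℝ) ^ B₀ → ∀ N, K₀ ≤ N → ∀ θ : ℝ, |θ| ≤ 1 →
    ∀ w : ℕ → ℕ → ℝ, Dig b η w →
    ‖∑ n ∈ range (b ^ N), ((P b w 0 N n : ℝ) : ℂ) * ee (θ * φ 0 n)‖ ≤ C₆ * ρ ^ (lg b (|θ| * G N) / D) := by
  obtain ⟨D₀, L₀, A', ρ₀, hD₀, hL₀, hA', hρ₀, hρ₀1, hin⟩ := inner b hb η hη hη1 e c₁ c₂ hc₁ hc₂
  have hb0 : 0 < b := by omega
  obtain ⟨ρ, hρ⟩ : ∃ ρ, ρ = max ρ₀ (1 - η / 2) := ⟨_, rfl⟩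
  have hρh : 1 / 2 ≤ ρ := by rw [hρ]; exact le_max_of_le_left hρ₀
  have hρ1 : ρ < 1 := by rw [hρ]; exact max_lt hρ₀1 (by linarith)
  have hρ0 : 0 < ρ := by linarith
  have hρη : 1 - η ≤ ρ ^ 2 := by
    have h1 : 1 - η / 2 ≤ ρ := by rw [hρ]; exact le_max_right _ _
    have h2 : (1 - η / 2) ^ 2 ≤ ρ ^ 2 := pow_le_pow_left₀ (by linarith) h1 2
    nlinarith
  obtain ⟨D, hD⟩ : ∃ D, D = D₀ + c' + 1 := ⟨_, rfl⟩
  obtain ⟨C₅, hC₅⟩ : ∃ C₅, C₅ = A' + (1 / ρ) ^ L₀ := ⟨_, rfl⟩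
  have hinv : 1 ≤ 1 / ρ := by rw [le_div_iff₀ hρ0]; linarith
  have hC₅0 : 0 < C₅ := by rw [hC₅]; positivity
  have h1ρ : 0 < 1 - ρ := by linarith
  refine ⟨D, ρ, by omega, hρh, hρ1, fun B₀ => ⟨C₅ / (1 - ρ) + (1 / ρ) ^ B₀, ?_, ?_⟩⟩
  · have h1 : 1 ≤ (1 / ρ) ^ B₀ := one_le_pow₀ hinv
    have h2 : 0 < C₅ / (1 - ρ) := by positivity
    linarith
  obtain ⟨C₆, hC₆⟩ : ∃ C₆, C₆ = C₅ / (1 - ρ) + (1 / ρ) ^ B₀ := ⟨_, rfl⟩
  rw [← hC₆]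
  have hC₆5 : C₅ ≤ C₆ * (1 - ρ) := by
    rw [hC₆, add_mul, div_mul_cancel₀ _ h1ρ.ne']
    have : 0 ≤ (1 / ρ) ^ B₀ * (1 - ρ) := by positivity
    linarith
  have hC₆0 : 0 < C₆ := by rw [hC₆]; positivity
  intro K₀ φ G hR hG N hN θ hθ w hw
  induction N, hN using Nat.le_induction with
  | base =>
    have h1 : ‖∑ n ∈ range (b ^ K₀), ((P b w 0 K₀ n : ℝ) : ℂ) * ee (θ * φ 0 n)‖ ≤ 1 :=
      norm_avg hb0 hw 0 K₀ _ 1 (fun n => by rw [norm_ee])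
    have h2 : lg b (|θ| * G K₀) / D ≤ B₀ := by
      refine (Nat.div_le_self _ _).trans ?_
      rw [← lg_pow b hb B₀]
      apply lg_mono
      calc |θ| * G K₀ ≤ 1 * G K₀ := mul_le_mul_of_nonneg_right hθ (hR.pos _).le
        _ ≤ _ := by rw [one_mul]; exact hG
    refine h1.trans ?_
    have h3 : ρ ^ B₀ ≤ ρ ^ (lg b (|θ| * G K₀) / D) := pow_le_pow_of_le_one hρ0.le hρ1.le h2
    calc (1 : ℝ) = (1 / ρ) ^ B₀ * ρ ^ B₀ := by rw [← mul_pow, one_div_mul_cancel hρ0.ne', one_pow]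
      _ ≤ C₆ * ρ ^ B₀ := by
          apply mul_le_mul_of_nonneg_right _ (by positivity)
          rw [hC₆]
          have : 0 < C₅ / (1 - ρ) := by positivity
          linarith
      _ ≤ _ := mul_le_mul_of_nonneg_left h3 hC₆0.le
  | succ N hN ih =>
    obtain ⟨l, hl⟩ : ∃ l, l = lg b (|θ| * G N) / D := ⟨_, rfl⟩
    obtain ⟨u', hu'⟩ : ∃ u', u' = lg b (|θ| * G (N + 1)) := ⟨_, rfl⟩
    obtain ⟨l', hl'⟩ : ∃ l', l' = u' / D := ⟨_, rfl⟩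
    rw [← hl] at ih
    rw [← hu', ← hl']
    have hll : l' ≤ l + 1 := by
      rw [hl', hl]
      have h1 : u' ≤ lg b (|θ| * G N) + c' := by
        rw [hu']
        apply lg_step b hb
        calc |θ| * G (N + 1) ≤ |θ| * ((b : ℝ) ^ c' * G N) := mul_le_mul_of_nonneg_left (hR.step N hN) (abs_nonneg _)
          _ = _ := by ring
      calc u' / D ≤ (lg b (|θ| * G N) + D) / D := Nat.div_le_div_right (by omega)
        _ = _ := Nat.add_div_right _ (by omega)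
    -- the low numbers
    have hE : ∑ n ∈ range (b ^ (N + 1)), ((P b w 0 (N + 1) n : ℝ) : ℂ) * ee (θ * φ 0 n) =
        ((w N 0 : ℝ) : ℂ) * ∑ n ∈ range (b ^ N), ((P b w 0 N n : ℝ) : ℂ) * ee (θ * φ 0 n) +
        ∑ n ∈ range (b ^ (N + 1)), ((P b w 0 (N + 1) n : ℝ) : ℂ) * (if b ^ N ≤ n then ee (θ * φ 0 n) else 0) := by
      have h1 : ((w N 0 : ℝ) : ℂ) * ∑ n ∈ range (b ^ N), ((P b w 0 N n : ℝ) : ℂ) * ee (θ * φ 0 n) =
          ∑ n ∈ range (b ^ (N + 1)), ((P b w 0 (N + 1) n : ℝ) : ℂ) * (if b ^ N ≤ n then 0 else ee (θ * φ 0 n)) := by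
        have hsub : range (b ^ N) ⊆ range (b ^ (N + 1)) := range_subset_range.2 (Nat.pow_le_pow_right hb0 (by omega))
        rw [← sum_subset hsub (fun n _ hn => by
          rw [mem_range, not_lt] at hn
          rw [if_pos hn, mul_zero]), mul_sum]
        apply sum_congr rfl
        intro n hn
        have hn' := mem_range.1 hn
        rw [if_neg (by omega)]
        have h2 := P_split b hb0 w 0 N 1 n 0 hn'
        rw [mul_zero, add_zero] at h2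
        rw [h2]
        have h3 : P b w (0 + N) 1 0 = w N 0 := by
          unfold P
          rw [prod_range_one, pow_zero, Nat.div_one, add_zero, zero_add, Nat.zero_mod]
        rw [h3]
        push_cast
        ring
      rw [h1, ← sum_add_distrib]
      apply sum_congr rfl
      intro n _
      split_ifs <;> ring
    -- the numbers with exactly `N + 1` digits
    have hB : ‖∑ n ∈ range (b ^ (N + 1)), ((P b w 0 (N + 1) n : ℝ) : ℂ) * (if b ^ N ≤ n then ee (θ * φ 0 n) else 0)‖ ≤ C₅ * ρ ^ l' := by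
      have htriv : ‖∑ n ∈ range (b ^ (N + 1)), ((P b w 0 (N + 1) n : ℝ) : ℂ) * (if b ^ N ≤ n then ee (θ * φ 0 n) else 0)‖ ≤ 1 :=
        norm_avg hb0 hw 0 (N + 1) _ 1 (fun n => by split_ifs <;> simp [norm_ee])
      rcases Nat.lt_or_ge l' L₀ with h | h
      · refine htriv.trans ?_
        have h3 : ρ ^ L₀ ≤ ρ ^ l' := pow_le_pow_of_le_one hρ0.le hρ1.le h.le
        calc (1 : ℝ) = (1 / ρ) ^ L₀ * ρ ^ L₀ := by rw [← mul_pow, one_div_mul_cancel hρ0.ne', one_pow]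
          _ ≤ C₅ * ρ ^ L₀ := by
              apply mul_le_mul_of_nonneg_right _ (by positivity)
              rw [hC₅]
              linarith
          _ ≤ _ := mul_le_mul_of_nonneg_left h3 hC₅0.le
      · have hx1 : 1 ≤ |θ| * G (N + 1) := by
          by_contra hcon
          rw [not_le] at hcon
          have h0 := lg_zero b _ hcon
          rw [← hu'] at h0
          rw [hl', h0, Nat.zero_div] at h
          omega
        have h1 := lg_le b _ hx1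
        have h2 := lt_lg b hb (|θ| * G (N + 1))
        rw [← hu'] at h1 h2
        have h3 : D₀ * l' ≤ u' := by
          calc D₀ * l' ≤ D * l' := Nat.mul_le_mul_right _ (by omega)
            _ ≤ u' := by rw [hl']; exact Nat.mul_div_le _ _
        have h4 := hin c' K₀ φ G hR N hN θ hθ u' l' h1 h2.le h h3 w hw
        refine h4.trans ?_
        have h5 : ρ₀ ^ l' ≤ ρ ^ l' := pow_le_pow_left₀ (by linarith) (by rw [hρ]; exact le_max_left _ _) _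
        calc A' * ρ₀ ^ l' ≤ A' * ρ ^ l' := mul_le_mul_of_nonneg_left h5 (by linarith)
          _ ≤ _ := by
              apply mul_le_mul_of_nonneg_right _ (by positivity)
              rw [hC₅]
              have : 0 < (1 / ρ) ^ L₀ := by positivity
              linarith
    rw [hE]
    refine (norm_add_le _ _).trans ?_
    rw [norm_mul, Complex.norm_real, Real.norm_of_nonneg (hw.nonneg N 0)]
    have h1 : w N 0 * ‖∑ n ∈ range (b ^ N), ((P b w 0 N n : ℝ) : ℂ) * ee (θ * φ 0 n)‖ ≤ ρ * C₆ * ρ ^ l' := by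
      calc w N 0 * ‖∑ n ∈ range (b ^ N), ((P b w 0 N n : ℝ) : ℂ) * ee (θ * φ 0 n)‖ ≤ ρ ^ 2 * (C₆ * ρ ^ l) :=
            mul_le_mul ((hw.le N 0).trans hρη) ih (norm_nonneg _) (by positivity)
        _ = ρ * C₆ * ρ ^ (l + 1) := by rw [pow_succ]; ring
        _ ≤ _ := by
            apply mul_le_mul_of_nonneg_left _ (by positivity)
            exact pow_le_pow_of_le_one hρ0.le hρ1.le hll
    calc _ ≤ ρ * C₆ * ρ ^ l' + C₅ * ρ ^ l' := add_le_add h1 hB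
      _ = (ρ * C₆ + C₅) * ρ ^ l' := by ring
      _ ≤ C₆ * ρ ^ l' := by
          apply mul_le_mul_of_nonneg_right _ (by positivity)
          linarith

/-- **Moments.** -/
theorem moment (b : ℕ) (hb : 2 ≤ b) (η : ℝ) (hη : 0 < η) (hη1 : η ≤ 1) (e c' : ℕ) (c₁ c₂ : ℝ) (hc₁ : 0 < c₁) (hc₂ : 0 < c₂) :
    ∃ q : ℕ, 1 ≤ q ∧ ∀ B₀ : ℕ, ∃ C₀ : ℝ, 1 ≤ C₀ ∧
    ∀ (K₀ : ℕ) (φ : ℕ → ℝ → ℝ) (G : ℕ → ℝ), Reg b e c' K₀ c₁ c₂ φ G → G K₀ ≤ (b : ℝ) ^ B₀ → ∀ N, K₀ ≤ N →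
    ∀ Y : ℕ, 1 ≤ Y → (Y : ℝ) ≤ 2 * G N → ∀ w : ℕ → ℕ → ℝ, Dig b η w →
    ∑ t ∈ range Y, ‖∑ n ∈ range (b ^ N), ((P b w 0 N n : ℝ) : ℂ) * ee ((t : ℝ) / ((12 * q * Y : ℕ) : ℝ) * φ 0 n)‖ ^ (2 * q) ≤ C₀ := by
  obtain ⟨D, ρ, hD, hρh, hρ1, hdec⟩ := decay b hb η hη hη1 e c' c₁ c₂ hc₁ hc₂
  have hb0 : 0 < b := by omega
  have hbr : (0 : ℝ) < b := by exact_mod_cast hb0
  have hb1 : (1 : ℝ) ≤ b := by exact_mod_cast (by omega : 1 ≤ b)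
  have hρ0 : 0 < ρ := by linarith
  obtain ⟨q₀, hq₀⟩ := exists_pow_lt_of_lt_one (show 0 < 1 / (b : ℝ) ^ (2 * D) by positivity) hρ1
  obtain ⟨q, hq⟩ : ∃ q, q = q₀ + 1 := ⟨_, rfl⟩
  have hq1 : 1 ≤ q := by omega
  have hqr : (1 : ℝ) ≤ q := by exact_mod_cast hq1
  have hρq : ρ ^ (2 * q) ≤ 1 / (b : ℝ) ^ (2 * D) :=
    (pow_le_pow_of_le_one hρ0.le hρ1.le (by omega)).trans hq₀.le
  refine ⟨q, hq1, fun B₀ => ?_⟩
  obtain ⟨C₆, hC₆, hdec⟩ := hdec B₀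
  refine ⟨1 + 2 * (C₆ ^ (2 * q) * (b : ℝ) ^ (2 * D) * (24 * q) ^ 2), by
    have : 0 ≤ C₆ ^ (2 * q) * (b : ℝ) ^ (2 * D) * (24 * q) ^ 2 := by positivity
    linarith, fun K₀ φ G hR hG N hN Y hY hYG w hw => ?_⟩
  have hYr : (1 : ℝ) ≤ Y := by exact_mod_cast hY
  have hGN := hR.pos N
  obtain ⟨Z, hZ⟩ : ∃ Z : ℕ → ℝ, ∀ t, Z t = ‖∑ n ∈ range (b ^ N), ((P b w 0 N n : ℝ) : ℂ) * ee ((t : ℝ) / ((12 * q * Y : ℕ) : ℝ) * φ 0 n)‖ :=
    ⟨_, fun _ => rfl⟩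
  simp only [← hZ]
  have hZ0 : ∀ t, 0 ≤ Z t := fun t => by rw [hZ]; exact norm_nonneg _
  have hZ1 : ∀ t, Z t ≤ 1 := by
    intro t
    rw [hZ]
    exact norm_avg hb0 hw 0 N _ 1 (fun n => by rw [norm_ee])
  have hterm : ∀ t : ℕ, 1 ≤ t → t < Y → Z t ^ (2 * q) ≤ (C₆ ^ (2 * q) * (b : ℝ) ^ (2 * D) * (24 * q) ^ 2) * ((t : ℝ) ^ 2)⁻¹ := by
    intro t ht htY
    have htr : (1 : ℝ) ≤ t := by exact_mod_cast ht
    have htY' : (t : ℝ) ≤ Y := by exact_mod_cast htY.le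
    obtain ⟨θ, hθ⟩ : ∃ θ : ℝ, θ = (t : ℝ) / ((12 * q * Y : ℕ) : ℝ) := ⟨_, rfl⟩
    have hden : (0 : ℝ) < ((12 * q * Y : ℕ) : ℝ) := by push_cast; positivity
    have hθ0 : 0 < θ := by rw [hθ]; positivity
    have hθa : |θ| = θ := abs_of_pos hθ0
    have hθ1 : |θ| ≤ 1 := by
      rw [hθa, hθ, div_le_one hden]
      push_cast
      nlinarith
    have h1 := hdec K₀ φ G hR hG N hN θ hθ1 w hw
    have h2 : (t : ℝ) / (24 * q) ≤ |θ| * G N := by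
      rw [hθa, hθ, div_mul_eq_mul_div, div_le_div_iff₀ (by positivity) hden]
      push_cast
      have h3 : (t : ℝ) * (12 * q) * Y ≤ t * (12 * q) * (2 * G N) := mul_le_mul_of_nonneg_left hYG (by positivity)
      linarith
    obtain ⟨v, hv⟩ : ∃ v, v = lg b (|θ| * G N) := ⟨_, rfl⟩
    rw [← hv] at h1
    have h3 := lt_lg b hb (|θ| * G N)
    rw [← hv] at h3
    have h4 : (t : ℝ) / (24 * q) ≤ (b : ℝ) ^ (v + 1) := h2.trans h3.le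
    have h5 : v + 1 ≤ D * (v / D) + D := by
      have := Nat.lt_mul_div_succ v (by omega : 0 < D)
      rw [mul_add, mul_one] at this
      omega
    have h6 : (t : ℝ) / (24 * q) ≤ (b : ℝ) ^ (D * (v / D)) * (b : ℝ) ^ D := by
      rw [← pow_add]
      exact h4.trans (pow_le_pow_right₀ hb1 h5)
    have h7 : ((t : ℝ) / (24 * q)) ^ 2 ≤ ((b : ℝ) ^ (2 * D)) ^ (v / D) * (b : ℝ) ^ (2 * D) := by
      calc ((t : ℝ) / (24 * q)) ^ 2 ≤ ((b : ℝ) ^ (D * (v / D)) * (b : ℝ) ^ D) ^ 2 := pow_le_pow_left₀ (by positivity) h6 2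
        _ = _ := by rw [mul_pow, ← pow_mul, ← pow_mul, ← pow_mul]; congr 2 <;> ring
    have h8 : (ρ ^ (v / D)) ^ (2 * q) ≤ (1 / (b : ℝ) ^ (2 * D)) ^ (v / D) := by
      rw [← pow_mul, mul_comm, pow_mul]
      exact pow_le_pow_left₀ (by positivity) hρq _
    have hZt : Z t = ‖∑ n ∈ range (b ^ N), ((P b w 0 N n : ℝ) : ℂ) * ee (θ * φ 0 n)‖ := by rw [hZ, hθ]
    rw [← hZt] at h1
    calc Z t ^ (2 * q) ≤ (C₆ * ρ ^ (v / D)) ^ (2 * q) := pow_le_pow_left₀ (hZ0 t) h1 _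
      _ = C₆ ^ (2 * q) * (ρ ^ (v / D)) ^ (2 * q) := mul_pow _ _ _
      _ ≤ C₆ ^ (2 * q) * (1 / (b : ℝ) ^ (2 * D)) ^ (v / D) := mul_le_mul_of_nonneg_left h8 (by positivity)
      _ ≤ C₆ ^ (2 * q) * ((b : ℝ) ^ (2 * D) * (24 * q) ^ 2 * ((t : ℝ) ^ 2)⁻¹) := by
          apply mul_le_mul_of_nonneg_left _ (by positivity)
          rw [one_div_pow, one_div, inv_le_iff_one_le_mul₀ (by positivity)]
          rw [div_pow, div_le_iff₀ (by positivity)] at h7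
          have h9 : (1 : ℝ) = (t : ℝ) ^ 2 * ((t : ℝ) ^ 2)⁻¹ := by
            rw [mul_inv_cancel₀ (by positivity)]
          rw [h9]
          calc (t : ℝ) ^ 2 * ((t : ℝ) ^ 2)⁻¹ ≤ (((b : ℝ) ^ (2 * D)) ^ (v / D) * (b : ℝ) ^ (2 * D) * (24 * q) ^ 2) * ((t : ℝ) ^ 2)⁻¹ :=
                mul_le_mul_of_nonneg_right h7 (by positivity)
            _ = _ := by ring
      _ = _ := by ring
  have hsplit : ∑ t ∈ range Y, Z t ^ (2 * q) ≤ 1 + ∑ t ∈ Ioo 0 Y, Z t ^ (2 * q) := by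
    have h1 : range Y = insert 0 (Ioo 0 Y) := by
      ext t
      rw [mem_range, mem_insert, mem_Ioo]
      omega
    rw [h1, sum_insert (by simp)]
    have := pow_le_one₀ (n := 2 * q) (hZ0 0) (hZ1 0)
    linarith
  refine hsplit.trans ?_
  have h1 : ∑ t ∈ Ioo 0 Y, Z t ^ (2 * q) ≤ (C₆ ^ (2 * q) * (b : ℝ) ^ (2 * D) * (24 * q) ^ 2) * ∑ t ∈ Ioo 0 Y, ((t : ℝ) ^ 2)⁻¹ := by
    rw [mul_sum]
    apply sum_le_sum
    intro t ht
    rw [mem_Ioo] at ht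
    exact hterm t ht.1 ht.2
  have h2 : ∑ t ∈ Ioo 0 Y, ((t : ℝ) ^ 2)⁻¹ ≤ 2 := by
    have := sum_Ioo_inv_sq_le (α := ℝ) 0 Y
    simpa using this
  have h3 : (C₆ ^ (2 * q) * (b : ℝ) ^ (2 * D) * (24 * q) ^ 2) * ∑ t ∈ Ioo 0 Y, ((t : ℝ) ^ 2)⁻¹ ≤
      (C₆ ^ (2 * q) * (b : ℝ) ^ (2 * D) * (24 * q) ^ 2) * 2 := mul_le_mul_of_nonneg_left h2 (by positivity)
  linarith

end Pool.Agent.HP25.NI
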